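import Pool.Agent.Helper51.SY.Prod

/-!
# Generating functions of the columns of a Hodge ring
-/

set_option autoImplicit false

namespace Pool.Agent.Hodge81

open Complex Module LaurentPolynomial

namespace HodgeRing

variable {n : ℕ} {A : Type*} [Ring A] [Algebra ℂ A] (X : HodgeRing n A)

/-- a weighted sum of the Hodge numbers -/
noncomputable def gen {R : Type*} [CommRing R] (w : ℕ × ℕ → R) : R :=
  ∑ x ∈ Finset.range (n + 1) ×ˢ Finset.range (n + 1), (X.h x.1 x.2 : R) * w x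

/-- the weights `s^q T^{p-q}` -/
noncomputable def wt (s : ℤ) (x : ℕ × ℕ) : ℤ[T;T⁻¹] := C (s ^ x.2) * T ((x.1 : ℤ) - x.2)

theorem wt_add (s : ℤ) (x y : ℕ × ℕ) : wt s (x + y) = wt s x * wt s y := by
  unfold wt
  rw [Prod.fst_add, Prod.snd_add, pow_add, map_mul]
  have h1 : (((x.1 + y.1 : ℕ) : ℤ) - ((x.2 + y.2 : ℕ) : ℤ)) =
      ((x.1 : ℤ) - x.2) + ((y.1 : ℤ) - y.2) := by
    push_cast
    ring
  rw [h1, T_add]
  ring

theorem coeff_wt (s : ℤ) (x : ℕ × ℕ) (d : ℤ) :
    (wt s x).coeff d = if (x.1 : ℤ) - x.2 = d then s ^ x.2 else 0 := by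
  unfold wt
  rw [← single_eq_C_mul_T, AddMonoidAlgebra.coeff_single, Finsupp.single_apply]

theorem coeff_gen (s : ℤ) (d : ℤ) : (X.gen (wt s)).coeff d =
    ∑ x ∈ Finset.range (n + 1) ×ˢ Finset.range (n + 1),
      (X.h x.1 x.2 : ℤ) * (if (x.1 : ℤ) - x.2 = d then s ^ x.2 else 0) := by
  unfold gen
  rw [AddMonoidAlgebra.coeff_sum, Finsupp.finsetSum_apply]
  refine Finset.sum_congr rfl fun x _ => ?_
  rw [← nsmul_eq_mul, AddMonoidAlgebra.coeff_smul, Finsupp.smul_apply, coeff_wt, nsmul_eq_mul]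

theorem h_eq_zero {p q : ℕ} (h : n < p ∨ n < q) : X.h p q = 0 := by
  unfold HodgeRing.h
  rw [X.bounded p q h, finrank_bot]

theorem coeff_gen_nat (s : ℤ) (c : ℕ) : (X.gen (wt s)).coeff (c : ℤ) =
    ∑ j ∈ Finset.range (n + 1), s ^ j * (X.h (c + j) j : ℤ) := by
  rw [coeff_gen, Finset.sum_product_right]
  refine Finset.sum_congr rfl fun q _ => ?_
  rw [Finset.sum_eq_single (c + q)]
  · rw [if_pos (by push_cast; ring), mul_comm]
  · intro p _ hp
    rw [if_neg (by intro h; apply hp; omega), mul_zero]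
  · intro h
    rw [Finset.mem_range] at h
    rw [X.h_eq_zero (by omega)]
    push_cast
    ring

/-- the polynomial of the ranks of `x` on the columns -/
noncomputable def rkL (x : A) : ℤ[T;T⁻¹] :=
  ∑ d ∈ Finset.Icc (-(n : ℤ)) n, C (X.rk x d : ℤ) * T d

theorem column_far {d : ℤ} (hd : d < -(n : ℤ) ∨ (n : ℤ) < d) : X.column d = ⊥ := by
  unfold column
  rw [iSup_eq_bot]
  intro x
  rw [iSup_eq_bot]
  intro hx
  apply X.bounded
  omega

theorem coeff_rkL (x : A) (d : ℤ) : (X.rkL x).coeff d = X.rk x d := by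
  unfold rkL
  rw [AddMonoidAlgebra.coeff_sum, Finsupp.finsetSum_apply]
  have h1 : ∀ i ∈ Finset.Icc (-(n : ℤ)) n, (C (X.rk x i : ℤ) * T i : ℤ[T;T⁻¹]).coeff d =
      if i = d then (X.rk x d : ℤ) else 0 := by
    intro i _
    rw [← single_eq_C_mul_T, AddMonoidAlgebra.coeff_single, Finsupp.single_apply]
    split_ifs with h
    · rw [h]
    · rfl
  rw [Finset.sum_congr rfl h1, Finset.sum_ite_eq' (Finset.Icc (-(n : ℤ)) n) d]
  split_ifs with h
  · rfl
  · rw [Finset.mem_Icc] at h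
    unfold rk
    rw [X.column_far (by omega), Submodule.map_bot, finrank_bot]
    rfl

end HodgeRing

namespace Product

variable {n a b : ℕ} {A C D : Type*} [Ring A] [Algebra ℂ A] [Ring C] [Algebra ℂ C]
  [Ring D] [Algebra ℂ D] {X : HodgeRing n A} {S : HodgeRing a C} {Z : HodgeRing b D}
  (Q : Product X S Z)

include Q in
theorem gen_mul [FiniteDimensional ℂ C] [FiniteDimensional ℂ D] {R : Type*} [CommRing R]
    (w : ℕ × ℕ → R) (hw : ∀ x y, w (x + y) = w x * w y) :
    X.gen w = S.gen w * Z.gen w := by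
  classical
  unfold HodgeRing.gen
  rw [← S.hbasis.sum_deg w, ← Z.hbasis.sum_deg w,
    ← (Q.hbasis S.hbasis Z.hbasis).sum_deg w, Finset.sum_mul_sum, Fintype.sum_prod_type]
  refine Finset.sum_congr rfl fun i _ => Finset.sum_congr rfl fun j _ => ?_
  exact hw _ _

theorem rkL_fst [FiniteDimensional ℂ A] [FiniteDimensional ℂ C] [FiniteDimensional ℂ D] (x : C) :
    X.rkL (Q.fst x) = S.rkL x * Z.gen (HodgeRing.wt 1) := by
  classical
  unfold HodgeRing.gen
  rw [← Z.hbasis.sum_deg (HodgeRing.wt 1), Finset.mul_sum]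
  ext d
  rw [HodgeRing.coeff_rkL, Q.rk_fst S.hbasis Z.hbasis, AddMonoidAlgebra.coeff_sum,
    Finsupp.finsetSum_apply]
  push_cast
  refine Finset.sum_congr rfl fun j _ => ?_
  unfold HodgeRing.wt
  rw [one_pow, ← single_eq_C_mul_T, AddMonoidAlgebra.coeff_mul_single_apply, mul_one,
    HodgeRing.coeff_rkL]
  rfl

end Product

end Pool.Agent.Hodge81
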