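import Pool.Agent.Helper51.SY.Sympl

/-!
# Homogeneous bases of a Hodge ring
-/

set_option autoImplicit false

namespace Pool.Agent.Hodge81

open Complex Module

section lattice

variable {K V ι : Type*} [Field K] [AddCommGroup V] [Module K V]

theorem eq_of_le_indep {W U : ι → Submodule K V} (hW : iSupIndep W) (hU : ∀ i, U i ≤ W i)
    (htop : ⨆ i, U i = ⊤) (j : ι) : U j = W j := by
  classical
  apply le_antisymm (hU j)
  intro w hw
  have h1 : w ∈ ⨆ i, U i := by rw [htop]; trivial
  obtain ⟨f, hf, hsum⟩ := (Submodule.mem_iSup_iff_exists_finsupp _ _).1 h1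
  have hsum' : ∑ i ∈ f.support, f i = w := hsum
  have e : w = f j + ∑ i ∈ (insert j f.support).erase j, f i := by
    rw [Finset.add_sum_erase _ _ (Finset.mem_insert_self j f.support), ← hsum']
    refine Finset.sum_subset (Finset.subset_insert _ _) fun i _ hi => ?_
    simpa using hi
  have h2 : w - f j ∈ W j := Submodule.sub_mem _ hw (hU j (hf j))
  have h3 : w - f j ∈ ⨆ (i : ι) (_ : i ≠ j), W i := by
    have e' : w - f j = ∑ i ∈ (insert j f.support).erase j, f i := by
      rw [sub_eq_iff_eq_add']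
      exact e
    rw [e']
    refine Submodule.sum_mem _ fun i hi => ?_
    exact le_iSup₂ (f := fun (i : ι) (_ : i ≠ j) => W i) i (Finset.mem_erase.1 hi).1
      (hU i (hf i))
  have h4 := Submodule.disjoint_def.1 (hW j) _ h2 h3
  rw [sub_eq_zero] at h4
  rw [h4]
  exact hf j

end lattice

/-- a homogeneous basis -/
structure HBasis {n : ℕ} {A : Type*} [Ring A] [Algebra ℂ A] (X : HodgeRing n A) (ι : Type*) where
  basis : Basis ι ℂ A
  deg : ι → ℕ × ℕ
  mem : ∀ i, basis i ∈ X.H (deg i).1 (deg i).2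

namespace HBasis

variable {n : ℕ} {A : Type*} [Ring A] [Algebra ℂ A] {X : HodgeRing n A} {ι : Type*}
  (β : HBasis X ι)

theorem span_le (x : ℕ × ℕ) : Submodule.span ℂ (β.basis '' {i | β.deg i = x}) ≤ X.H x.1 x.2 := by
  rw [Submodule.span_le]
  rintro _ ⟨i, hi, rfl⟩
  have h1 := β.mem i
  have h2 : β.deg i = x := hi
  rw [h2] at h1
  exact h1

theorem span_eq (x : ℕ × ℕ) : Submodule.span ℂ (β.basis '' {i | β.deg i = x}) = X.H x.1 x.2 := by
  refine eq_of_le_indep (W := fun x : ℕ × ℕ => X.H x.1 x.2)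
    (U := fun x => Submodule.span ℂ (β.basis '' {i | β.deg i = x})) X.indep β.span_le ?_ x
  rw [eq_top_iff, ← β.basis.span_eq, Submodule.span_le]
  rintro _ ⟨i, rfl⟩
  refine Submodule.mem_iSup_of_mem (β.deg i) (Submodule.subset_span ⟨i, rfl, rfl⟩)

theorem column_eq (d : ℤ) : X.column d =
    Submodule.span ℂ (β.basis '' {i | ((β.deg i).1 : ℤ) - (β.deg i).2 = d}) := by
  apply le_antisymm
  · refine iSup₂_le fun x hx => ?_
    rw [← β.span_eq x]
    refine Submodule.span_mono ?_
    rintro _ ⟨i, hi, rfl⟩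
    refine ⟨i, ?_, rfl⟩
    have h2 : β.deg i = x := hi
    change ((β.deg i).1 : ℤ) - (β.deg i).2 = d
    rw [h2]
    exact hx
  · rw [Submodule.span_le]
    rintro _ ⟨i, hi, rfl⟩
    exact X.mem_column hi (β.mem i)

theorem h_eq [Fintype ι] [DecidableEq ι] (x : ℕ × ℕ) :
    X.h x.1 x.2 = (Finset.univ.filter fun i => β.deg i = x).card := by
  classical
  unfold HodgeRing.h
  rw [← β.span_eq x]
  have e : (β.basis '' {i | β.deg i = x}) =
      Set.range (fun i : {i // β.deg i = x} => β.basis i.1) := by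
    ext v
    constructor
    · rintro ⟨i, hi, rfl⟩
      exact ⟨⟨i, hi⟩, rfl⟩
    · rintro ⟨i, rfl⟩
      exact ⟨i.1, i.2, rfl⟩
  have h1 := finrank_span_eq_card (R := ℂ) (b := fun i : {i // β.deg i = x} => β.basis i.1)
    (β.basis.linearIndependent.comp (fun i : {i // β.deg i = x} => i.1) Subtype.val_injective)
  rw [e, h1, Fintype.card_subtype]

theorem deg_le (i : ι) : (β.deg i).1 ≤ n ∧ (β.deg i).2 ≤ n := by
  by_contra h
  have h1 := β.mem i
  rw [X.bounded _ _ (by omega), Submodule.mem_bot] at h1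
  exact β.basis.ne_zero i h1

/-- sums over a homogeneous basis -/
theorem sum_deg [Fintype ι] [DecidableEq ι] {R : Type*} [CommRing R] (w : ℕ × ℕ → R) :
    ∑ i, w (β.deg i) =
      ∑ x ∈ Finset.range (n + 1) ×ˢ Finset.range (n + 1), (X.h x.1 x.2 : R) * w x := by
  have h1 : ∀ i ∈ (Finset.univ : Finset ι),
      β.deg i ∈ Finset.range (n + 1) ×ˢ Finset.range (n + 1) := by
    intro i _
    have := β.deg_le i
    rw [Finset.mem_product, Finset.mem_range, Finset.mem_range]
    omega
  rw [← Finset.sum_fiberwise_of_maps_to h1]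
  refine Finset.sum_congr rfl fun x _ => ?_
  rw [β.h_eq x, Finset.sum_congr rfl (g := fun _ => w x) (fun i hi => ?_), Finset.sum_const,
    nsmul_eq_mul]
  rw [(Finset.mem_filter.1 hi).2]

end HBasis

/-- the index set of the standard homogeneous basis -/
def HodgeRing.Idx {n : ℕ} {A : Type*} [Ring A] [Algebra ℂ A] (X : HodgeRing n A) : Type :=
  Σ x : ℕ × ℕ, Fin (finrank ℂ (X.H x.1 x.2))

/-- the standard homogeneous basis -/
noncomputable def HodgeRing.hbasis {n : ℕ} {A : Type*} [Ring A] [Algebra ℂ A]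
    [FiniteDimensional ℂ A] (X : HodgeRing n A) : HBasis X X.Idx where
  basis := X.internal.collectedBasis fun x => Module.finBasis ℂ (X.H x.1 x.2)
  deg i := i.1
  mem i := X.internal.collectedBasis_mem (fun x => Module.finBasis ℂ (X.H x.1 x.2)) i

noncomputable instance {n : ℕ} {A : Type*} [Ring A] [Algebra ℂ A]
    [FiniteDimensional ℂ A] (X : HodgeRing n A) : Fintype X.Idx :=
  FiniteDimensional.fintypeBasisIndex X.hbasis.basis

noncomputable instance {n : ℕ} {A : Type*} [Ring A] [Algebra ℂ A]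
    (X : HodgeRing n A) : DecidableEq X.Idx := Classical.decEq _

end Pool.Agent.Hodge81
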