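import Mathlib

/-!
# The rank of the leading part of a filtered map
-/

set_option autoImplicit false

namespace Pool.Agent.Hodge81

open Module

section lin

variable {K V W W' : Type*} [Field K] [AddCommGroup V] [Module K V] [AddCommGroup W] [Module K W]
  [AddCommGroup W'] [Module K W']

theorem finrank_map_of_inj' (f : V →ₗ[K] W) (S : Submodule K V)
    (h : ∀ v ∈ S, f v = 0 → v = 0) : finrank K (S.map f) = finrank K S := by
  rw [← LinearMap.range_domRestrict]
  apply LinearMap.finrank_range_of_inj
  rw [← LinearMap.ker_eq_bot, LinearMap.ker_eq_bot']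
  intro y hy
  exact Subtype.ext (h y.1 y.2 hy)

theorem finrank_map_add_inf [FiniteDimensional K W] (π : W →ₗ[K] W') (S : Submodule K W) :
    finrank K (S.map π) + finrank K (S ⊓ LinearMap.ker π : Submodule K W) = finrank K S := by
  have h1 := LinearMap.finrank_range_add_finrank_ker (π.domRestrict S)
  have h2 : LinearMap.range (π.domRestrict S) = S.map π := LinearMap.range_domRestrict S π
  have h3 : finrank K (LinearMap.ker (π.domRestrict S)) =
      finrank K (S ⊓ LinearMap.ker π : Submodule K W) := by
    have e : (LinearMap.ker (π.domRestrict S)).map S.subtype = S ⊓ LinearMap.ker π := by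
      ext w
      constructor
      · rintro ⟨v, hv, rfl⟩
        exact ⟨v.2, hv⟩
      · rintro ⟨h, h'⟩
        exact ⟨⟨w, h⟩, h', rfl⟩
    rw [← e]
    exact (finrank_map_of_inj' _ _ fun v _ h => Subtype.ext h).symm
  rw [← h2, ← h3]
  exact h1

/-- the sum of the first pieces -/
def firsts (F : ℕ → Submodule K V) (N : ℕ) : Submodule K V := ⨆ (j : ℕ) (_ : j < N), F j

theorem le_firsts (F : ℕ → Submodule K V) {j N : ℕ} (h : j < N) : F j ≤ firsts F N :=
  le_iSup₂ (f := fun (j : ℕ) (_ : j < N) => F j) j h

theorem firsts_zero (F : ℕ → Submodule K V) : firsts F 0 = ⊥ := by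
  refine le_bot_iff.1 (iSup₂_le fun j hj => absurd hj (Nat.not_lt_zero j))

theorem firsts_mono (F : ℕ → Submodule K V) {M N : ℕ} (h : M ≤ N) : firsts F M ≤ firsts F N :=
  iSup₂_le fun _ hj => le_firsts F (lt_of_lt_of_le hj h)

theorem firsts_succ (F : ℕ → Submodule K V) (N : ℕ) : firsts F (N + 1) = firsts F N ⊔ F N := by
  apply le_antisymm
  · refine iSup₂_le fun j hj => ?_
    rcases Nat.lt_succ_iff_lt_or_eq.1 hj with h | rfl
    · exact (le_firsts F h).trans le_sup_left
    · exact le_sup_right
  · exact sup_le (firsts_mono F (Nat.le_succ N)) (le_firsts F (Nat.lt_succ_self N))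

theorem map_firsts_le {F : ℕ → Submodule K V} {G : ℕ → Submodule K W} {f : V →ₗ[K] W} {s : ℕ}
    (h : ∀ j, (F j).map f ≤ G (j + s)) (N : ℕ) : (firsts F N).map f ≤ firsts G (N + s) := by
  rw [Submodule.map_le_iff_le_comap]
  refine iSup₂_le fun j hj => ?_
  rw [← Submodule.map_le_iff_le_comap]
  exact (h j).trans (le_firsts G (Nat.add_lt_add_right hj s))

theorem disjoint_firsts {G : ℕ → Submodule K W} (hG : iSupIndep G) (N : ℕ) :
    Disjoint (G N) (firsts G N) := by
  refine (hG N).mono_right (iSup₂_le fun j hj => ?_)
  exact le_iSup₂ (f := fun (j : ℕ) (_ : j ≠ N) => G j) j (ne_of_lt hj)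

/-- the rank of a map on a direct sum is additive if the images are independent -/
theorem finrank_map_firsts [FiniteDimensional K W] {F : ℕ → Submodule K V}
    {G : ℕ → Submodule K W} (hG : iSupIndep G) {m : V →ₗ[K] W} {s : ℕ}
    (hm : ∀ j, (F j).map m ≤ G (j + s))
    (N : ℕ) : finrank K ((firsts F N).map m) = ∑ j ∈ Finset.range N, finrank K ((F j).map m) := by
  induction N with
  | zero => simp [firsts_zero]
  | succ N ih =>
    rw [firsts_succ, Submodule.map_sup, Finset.sum_range_succ, ← ih]
    have h1 := Submodule.finrank_sup_add_finrank_inf_eq ((firsts F N).map m) ((F N).map m)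
    have h2 : (firsts F N).map m ⊓ (F N).map m = ⊥ :=
      ((disjoint_firsts hG (N + s)).symm.mono (map_firsts_le hm N) (hm N)).eq_bot
    rw [h2, finrank_bot, add_zero] at h1
    exact h1

/-- the rank of a filtered map is at least the rank of its leading part -/
theorem rank_lead [FiniteDimensional K W] {F : ℕ → Submodule K V}
    {G : ℕ → Submodule K W} (hG : iSupIndep G) {m g : V →ₗ[K] W} {s : ℕ}
    (hm : ∀ j, (F j).map m ≤ G (j + s))
    (hg : ∀ j, ∀ v ∈ F j, g v - m v ∈ firsts G (j + s)) (N : ℕ) :
    finrank K ((firsts F N).map m) ≤ finrank K ((firsts F N).map g) := by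
  induction N with
  | zero => rw [firsts_zero, Submodule.map_bot, Submodule.map_bot]
  | succ N ih =>
    have hdis := disjoint_firsts hG (N + s)
    have hgN : (firsts F N).map g ≤ firsts G (N + s) := by
      rw [Submodule.map_le_iff_le_comap]
      refine iSup₂_le fun j hj v hv => ?_
      have h1 := firsts_mono G (Nat.add_le_add_right hj.le s) (hg j v hv)
      have h2 : m v ∈ firsts G (N + s) := le_firsts G (Nat.add_lt_add_right hj s) (hm j ⟨v, hv, rfl⟩)
      have h3 := Submodule.add_mem _ h1 h2
      rwa [sub_add_cancel] at h3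
    set π := (firsts G (N + s)).mkQ with hπ
    have hker : LinearMap.ker π = firsts G (N + s) := Submodule.ker_mkQ _
    have h1 := finrank_map_add_inf π ((firsts F (N + 1)).map g)
    have h2 : finrank K ((firsts F N).map g) ≤
        finrank K ((firsts F (N + 1)).map g ⊓ LinearMap.ker π : Submodule K W) := by
      refine Submodule.finrank_mono (le_inf (Submodule.map_mono (firsts_mono F (Nat.le_succ N))) ?_)
      rw [hker]
      exact hgN
    have h3 : finrank K ((F N).map m) ≤ finrank K (((firsts F (N + 1)).map g).map π) := by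
      have h4 : ((F N).map m).map π ≤ ((firsts F (N + 1)).map g).map π := by
        rintro _ ⟨_, ⟨v, hv, rfl⟩, rfl⟩
        refine ⟨g v, ⟨v, le_firsts F (Nat.lt_succ_self N) hv, rfl⟩, ?_⟩
        rw [← sub_eq_zero, ← map_sub]
        have h5 : g v - m v ∈ LinearMap.ker π := by
          rw [hker]
          exact hg N v hv
        exact h5
      have h6 : finrank K (((F N).map m).map π) = finrank K ((F N).map m) := by
        refine finrank_map_of_inj' π _ fun w hw hw0 => ?_
        have h7 : w ∈ firsts G (N + s) := by
          rw [← hker]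
          exact hw0
        exact Submodule.disjoint_def.1 hdis w (hm N hw) h7
      rw [← h6]
      exact Submodule.finrank_mono h4
    have h8 : finrank K ((firsts F (N + 1)).map m) =
        finrank K ((firsts F N).map m) + finrank K ((F N).map m) := by
      rw [finrank_map_firsts hG hm, finrank_map_firsts hG hm, Finset.sum_range_succ]
    omega

end lin

end Pool.Agent.Hodge81
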