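import Pool.Agent.Helper28.HT.Final
import Pool.Agent.Helper51.SY.Lin

/-!
# The leading part of the transport of a multiplication
-/

set_option autoImplicit false

namespace Pool.Agent.Hodge81

open Complex Module

section expo

variable {n : ℕ} {A : Type*} [Ring A] [Algebra ℂ A] {X : HodgeRing n A}

/-- `f ↦ f ω - ω f` as an endomorphism of the endomorphisms -/
noncomputable def delE (X : HodgeRing n A) : Module.End ℂ (Module.End ℂ A) :=
  LinearMap.mulRight ℂ (LinearMap.mulLeft ℂ X.omega : Module.End ℂ A) -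
    LinearMap.mulLeft ℂ (LinearMap.mulLeft ℂ X.omega : Module.End ℂ A)

theorem delE_apply (f : Module.End ℂ A) : delE X f = PolyvectorAction.delta X f := rfl

theorem mulLeft_omega_pow (j : ℕ) :
    (LinearMap.mulLeft ℂ X.omega : Module.End ℂ A) ^ j = LinearMap.mulLeft ℂ (X.omega ^ j) :=
  LinearMap.pow_mulLeft _ _ _ _

theorem mulR_pow (j : ℕ) (f : Module.End ℂ A) :
    ((LinearMap.mulRight ℂ (LinearMap.mulLeft ℂ X.omega : Module.End ℂ A)) ^ j) f =
      f * LinearMap.mulLeft ℂ (X.omega ^ j) := by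
  rw [LinearMap.pow_mulRight, LinearMap.mulRight_apply, mulLeft_omega_pow]

theorem mulL_pow (j : ℕ) (f : Module.End ℂ A) :
    ((LinearMap.mulLeft ℂ (LinearMap.mulLeft ℂ X.omega : Module.End ℂ A)) ^ j) f =
      LinearMap.mulLeft ℂ (X.omega ^ j) * f := by
  rw [LinearMap.pow_mulLeft, LinearMap.mulLeft_apply, mulLeft_omega_pow]

/-- conjugation by `exp (z ω)` preserves every subspace which is stable under `delE` -/
theorem exists_conj_expo (S : Submodule ℂ (Module.End ℂ A)) (hS : ∀ f ∈ S, delE X f ∈ S)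
    {f : Module.End ℂ A} (hf : f ∈ S) (z : ℂ) :
    ∃ g ∈ S, ∀ v, f (X.expo z * v) = X.expo z * g v := by
  let _inst : Module ℚ (Module.End ℂ (Module.End ℂ A)) :=
    Module.compHom _ (algebraMap ℚ ℂ)
  have hq : ∀ (r : ℚ) (a : Module.End ℂ (Module.End ℂ A)), r • a = (r : ℂ) • a := fun r a => rfl
  set Rm : Module.End ℂ (Module.End ℂ A) :=
    LinearMap.mulRight ℂ (LinearMap.mulLeft ℂ X.omega : Module.End ℂ A) with hRm
  set Lm : Module.End ℂ (Module.End ℂ A) :=
    LinearMap.mulLeft ℂ (LinearMap.mulLeft ℂ X.omega : Module.End ℂ A) with hLm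
  have hR0 : Rm ^ (n + 1) = 0 := by
    ext1 f
    rw [hRm, mulR_pow, X.omega_pow_succ_eq_zero]
    simp
  have hL0 : Lm ^ (n + 1) = 0 := by
    ext1 f
    rw [hLm, mulL_pow, X.omega_pow_succ_eq_zero]
    simp
  have hcomm : Commute Rm Lm := by
    ext1 f
    change (LinearMap.mulLeft ℂ X.omega * f) * LinearMap.mulLeft ℂ X.omega =
      LinearMap.mulLeft ℂ X.omega * (f * LinearMap.mulLeft ℂ X.omega)
    rw [mul_assoc]
  have hdel : delE X = Rm - Lm := rfl
  have hnil : IsNilpotent (delE X) := by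
    rw [hdel]
    have hR1 : IsNilpotent Rm := ⟨n + 1, hR0⟩
    have hL1 : IsNilpotent Lm := ⟨n + 1, hL0⟩
    exact Commute.isNilpotent_sub (R := Module.End ℂ (Module.End ℂ A)) hcomm hR1 hL1
  have hcomm2 : Commute Lm (delE X) := by
    rw [hdel]
    exact Commute.sub_right (R := Module.End ℂ (Module.End ℂ A)) hcomm.symm (Commute.refl Lm)
  have hz : ∀ (a : Module.End ℂ (Module.End ℂ A)), IsNilpotent a → IsNilpotent (z • a) :=
    fun a ⟨N, hN⟩ => ⟨N, by rw [_root_.smul_pow, hN, smul_zero]⟩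
  have key : IsNilpotent.exp (z • Rm) =
      IsNilpotent.exp (z • Lm) * IsNilpotent.exp (z • delE X) := by
    rw [← IsNilpotent.exp_add_of_commute ((hcomm2.smul_left z).smul_right z)
      (hz _ ⟨n + 1, hL0⟩) (hz _ hnil), ← smul_add, hdel]
    congr 2
    abel
  have hexp : ∀ (a : Module.End ℂ (Module.End ℂ A)), a ^ (n + 1) = 0 → ∀ f,
      (IsNilpotent.exp (z • a)) f =
        ∑ j ∈ Finset.range (n + 1), (z ^ j * ((j.factorial : ℕ) : ℂ)⁻¹) • (a ^ j) f := by
    intro a ha f
    have h0 : (z • a) ^ (n + 1) = 0 := by rw [_root_.smul_pow, ha, smul_zero]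
    rw [IsNilpotent.exp_eq_sum h0, LinearMap.sum_apply]
    refine Finset.sum_congr rfl fun j _ => ?_
    rw [hq, _root_.smul_pow, smul_smul, LinearMap.smul_apply]
    congr 1
    push_cast
    ring
  refine ⟨(IsNilpotent.exp (z • delE X)) f, ?_, fun v => ?_⟩
  · obtain ⟨N, hN⟩ := hz _ hnil
    rw [IsNilpotent.exp_eq_sum hN, LinearMap.sum_apply]
    have h0 : ∀ j : ℕ, (delE X ^ j) f ∈ S := by
      intro j
      induction j with
      | zero => simpa using hf
      | succ j ih =>
        rw [pow_succ', Module.End.mul_apply]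
        exact hS _ ih
    refine Submodule.sum_mem _ fun j _ => ?_
    rw [hq, _root_.smul_pow, LinearMap.smul_apply, LinearMap.smul_apply]
    exact Submodule.smul_mem _ _ (Submodule.smul_mem _ _ (h0 j))
  · have h1 := LinearMap.congr_fun (LinearMap.congr_fun key f) v
    rw [Module.End.mul_apply, hexp _ hR0, hexp _ hL0] at h1
    have h2 : (∑ j ∈ Finset.range (n + 1), (z ^ j * ((j.factorial : ℕ) : ℂ)⁻¹) • (Rm ^ j) f) v =
        f (X.expo z * v) := by
      rw [LinearMap.sum_apply, HodgeRing.expo, Finset.sum_mul, map_sum]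
      refine Finset.sum_congr rfl fun j _ => ?_
      rw [LinearMap.smul_apply, hRm, mulR_pow, smul_mul_assoc, map_smul]
      rfl
    have h3 : (∑ j ∈ Finset.range (n + 1), (z ^ j * ((j.factorial : ℕ) : ℂ)⁻¹) •
        (Lm ^ j) ((IsNilpotent.exp (z • delE X)) f)) v =
        X.expo z * ((IsNilpotent.exp (z • delE X)) f) v := by
      rw [LinearMap.sum_apply, HodgeRing.expo, Finset.sum_mul]
      refine Finset.sum_congr rfl fun j _ => ?_
      rw [LinearMap.smul_apply, hLm, mulL_pow, smul_mul_assoc]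
      rfl
    rw [h2, h3] at h1
    exact h1

end expo

end Pool.Agent.Hodge81
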