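import Pool.Agent.Helper28.HT.Forms

/-!
# Symplectic varieties and products
-/

set_option autoImplicit false

namespace Pool.Agent.Hodge81

namespace HodgeRing

variable {r : ℕ} {C : Type*} [Ring C] [Algebra ℂ C]

/-- `t` is the contraction with the inverse bivector of the nondegenerate holomorphic two-form `s`
on a variety of dimension `2 r`: an operator of bidegree `(-2, 0)` whose commutator with the
multiplication by `s` is `r - p` on `H^{p,q}` -/
structure IsInverse (S : HodgeRing (2 * r) C) (s : C) (t : C →ₗ[ℂ] C) : Prop where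
  degree : ∀ p q v, v ∈ S.H (p + 2) q → t v ∈ S.H p q
  vanish : ∀ p q v, p < 2 → v ∈ S.H p q → t v = 0
  comm : ∀ p q v, v ∈ S.H p q → t (s * v) = s * t v + ((r : ℂ) - p) • v

/-- a holomorphic symplectic variety of dimension `2 r`: there are holomorphic two-forms `s` with
`s ^ r ≠ 0`, and all of them are nondegenerate -/
structure Symplectic (S : HodgeRing (2 * r) C) : Prop where
  exists_form : ∃ s ∈ S.H 2 0, s ^ r ≠ 0
  inverse : ∀ s ∈ S.H 2 0, s ^ r ≠ 0 → ∃ t, S.IsInverse s t

end HodgeRing

/-- the cohomology ring of a product `X = S × Z` of two varieties: the pullbacks from the factors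
preserve the Hodge types, and the Kuenneth formula holds -/
structure Product {n a b : ℕ} {A C D : Type*} [Ring A] [Algebra ℂ A] [Ring C] [Algebra ℂ C]
    [Ring D] [Algebra ℂ D] (X : HodgeRing n A) (S : HodgeRing a C) (Z : HodgeRing b D) where
  dim : a + b = n
  /-- pullback from the first factor -/
  fst : C →ₐ[ℂ] A
  /-- pullback from the second factor -/
  snd : D →ₐ[ℂ] A
  fst_mem : ∀ p q c, c ∈ S.H p q → fst c ∈ X.H p q
  snd_mem : ∀ p q z, z ∈ Z.H p q → snd z ∈ X.H p q
  kuenneth : Function.Bijective (TensorProduct.lift
    ((LinearMap.mul ℂ A).compl₁₂ fst.toLinearMap snd.toLinearMap))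

/-- `X = S × Z`, where `S` is a holomorphic symplectic variety of dimension `2 r` and `Z` is a
variety of dimension `b` without holomorphic one- and two-forms; if `b > 0`, the holomorphic forms
of `S` are generated by the one- and two-forms (as for products of an abelian variety and of
irreducible symplectic varieties) -/
structure Splitting {n r b : ℕ} {A C D : Type*} [Ring A] [Algebra ℂ A] [Ring C] [Algebra ℂ C]
    [Ring D] [Algebra ℂ D] (X : HodgeRing n A) (S : HodgeRing (2 * r) C) (Z : HodgeRing b D)
    extends Product X S Z where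
  symplectic : S.Symplectic
  generated : b = 0 ∨ ∀ k, S.H 0 k ≤ S.genPart k
  one_forms : Z.h 0 1 = 0
  two_forms : Z.h 0 2 = 0

end Pool.Agent.Hodge81
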