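import Pool.Agent.Helper51.SY.Small

/-!
# Products of a symplectic variety and a variety without one- and two-forms
-/

set_option autoImplicit false

namespace Pool.Agent.Hodge81

open Complex Module LaurentPolynomial

section ranks

variable {r : ℕ} {C C' : Type*} [Ring C] [Algebra ℂ C] [FiniteDimensional ℂ C]
  [Ring C'] [Algebra ℂ C'] [FiniteDimensional ℂ C']

/-- equal ranks imply equal Hodge numbers -/
theorem h_eq_of_ranks {S : HodgeRing (2 * r) C} {S' : HodgeRing (2 * r) C'}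
    (key0 : ∀ m ≤ r, ∀ d : ℤ, S.ps d (m + 1) + S.ps ((2 * (r - m) : ℕ) - d) m =
      S'.ps d (m + 1) + S'.ps ((2 * (r - m) : ℕ) - d) m) (p q : ℕ) : S.h p q = S'.h p q := by
  have key : ∀ m ≤ r + 1, ∀ d, S.ps d m = S'.ps d m := by
    intro m
    induction m with
    | zero => intro _ d; rfl
    | succ m ih =>
      intro hm d
      have h1 := key0 m (by omega) d
      have h3 := ih (by omega) ((2 * (r - m) : ℕ) - d)
      omega
  have low : ∀ (d : ℤ) (j : ℕ), j ≤ r → finrank ℂ (S.pc d j) = finrank ℂ (S'.pc d j) := by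
    intro d j hj
    have h1 := key (j + 1) (by omega) d
    have h2 := key j (by omega) d
    unfold HodgeRing.ps at h1 h2
    rw [Finset.sum_range_succ, Finset.sum_range_succ, h2] at h1
    omega
  have all : ∀ (d : ℤ) (j : ℕ), finrank ℂ (S.pc d j) = finrank ℂ (S'.pc d j) := by
    intro d j
    rcases Nat.lt_or_ge (2 * r) j with h0 | h0
    · rw [S.pc_eq_bot (by omega), S'.pc_eq_bot (by omega), finrank_bot, finrank_bot]
    · rcases Nat.lt_or_ge r j with h1 | h1
      · rw [← S.finrank_pc_serre d h0, ← S'.finrank_pc_serre d h0]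
        exact low _ _ (by omega)
      · exact low d j h1
  have h1 := all ((p : ℤ) - q) q
  rwa [S.finrank_pc _ q p rfl, S'.finrank_pc _ q p rfl] at h1

end ranks

section gen

variable {n : ℕ} {A B : Type*} [Ring A] [Algebra ℂ A] [Ring B] [Algebra ℂ B]

theorem gen_congr {R : Type*} [CommRing R] (X : HodgeRing n A) (Y : HodgeRing n B)
    (w : ℕ × ℕ → R) (h : ∀ p q, X.h p q = Y.h p q) : X.gen w = Y.gen w := by
  unfold HodgeRing.gen
  refine Finset.sum_congr rfl fun x _ => ?_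
  rw [h]

/-- the universal weights -/
noncomputable def uw (x : ℕ × ℕ) : AddMonoidAlgebra ℤ (ℕ × ℕ) := AddMonoidAlgebra.single x 1

theorem uw_add (x y : ℕ × ℕ) : uw (x + y) = uw x * uw y := by
  unfold uw
  rw [AddMonoidAlgebra.single_mul_single, mul_one]

theorem h_eq_of_gen (X : HodgeRing n A) (Y : HodgeRing n B) (h : X.gen uw = Y.gen uw)
    (p q : ℕ) : X.h p q = Y.h p q := by
  by_cases hb : n < p ∨ n < q
  · rw [X.h_eq_zero hb, Y.h_eq_zero hb]
  have coef : ∀ f : ℕ → ℕ → ℕ, (∑ x ∈ Finset.range (n + 1) ×ˢ Finset.range (n + 1),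
      ((f x.1 x.2 : AddMonoidAlgebra ℤ (ℕ × ℕ)) * uw x)).coeff (p, q) = f p q := by
    intro f
    rw [AddMonoidAlgebra.coeff_sum, Finsupp.finsetSum_apply,
      Finset.sum_eq_single (p, q)]
    · rw [← nsmul_eq_mul, AddMonoidAlgebra.coeff_smul, Finsupp.smul_apply, uw,
        AddMonoidAlgebra.coeff_single, Finsupp.single_eq_same]
      simp
    · intro x _ hx
      rw [← nsmul_eq_mul, AddMonoidAlgebra.coeff_smul, Finsupp.smul_apply, uw,
        AddMonoidAlgebra.coeff_single, Finsupp.single_eq_of_ne' hx, smul_zero]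
    · intro h
      exfalso
      apply h
      rw [Finset.mem_product, Finset.mem_range, Finset.mem_range]
      constructor <;> simp only <;> omega
  have h1 : (X.gen uw).coeff (p, q) = (Y.gen uw).coeff (p, q) := by rw [h]
  have h2 := coef X.h
  have h3 := coef Y.h
  unfold HodgeRing.gen at h1
  rw [h2, h3] at h1
  exact_mod_cast h1

end gen

section main

universe u

variable {n r b : ℕ} {A B : Type u} {C D C' D' : Type*}
  [Ring A] [Algebra ℂ A] [FiniteDimensional ℂ A] [Ring B] [Algebra ℂ B] [FiniteDimensional ℂ B]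
  [Ring C] [Algebra ℂ C] [FiniteDimensional ℂ C] [Ring D] [Algebra ℂ D] [FiniteDimensional ℂ D]
  [Ring C'] [Algebra ℂ C'] [FiniteDimensional ℂ C']
  [Ring D'] [Algebra ℂ D'] [FiniteDimensional ℂ D']
  {X : HodgeRing n A} {Y : HodgeRing n B} {P : PolyvectorAction X} {Q : PolyvectorAction Y}
  {phi : A ≃ₗ[ℂ] B}

omit [FiniteDimensional ℂ C] [FiniteDimensional ℂ D] in
/-- the dimension of the first factor does not grow -/
theorem dim_le (h : IsHochschildIso P Q phi) {r r' b b' : ℕ} {S : HodgeRing (2 * r) C}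
    {Z : HodgeRing b D} {S' : HodgeRing (2 * r') C'} {Z' : HodgeRing b' D'}
    (U : Product X S Z) (U' : Product Y S' Z') (ex : ∃ x ∈ S.H 0 2, x ^ r ≠ 0)
    (z1' : Z'.h 0 1 = 0) (z2' : Z'.h 0 2 = 0) : r ≤ r' := by
  obtain ⟨x, hx, hxr⟩ := ex
  have hX : U.fst x ∈ X.H 0 2 := U.fst_mem _ _ _ hx
  have hy := (evalE_spec (P := Q) h.symm Q.eval hX).1
  have h0 : U.fst x ^ r ≠ 0 := by
    rw [← map_pow]
    intro h1
    exact hxr (U.fst_inj _ h1)
  have hyr := evalE_pow_ne (P := Q) (X := Y) h.symm hX h0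
  obtain ⟨y, hy', e⟩ := U'.low_mem (k := 2) (fun l _ _ => by
    obtain rfl | rfl : l = 1 ∨ l = 2 := by omega
    · exact z1'
    · exact z2') hy
  rw [← e, ← map_pow] at hyr
  have h1 : y ^ r ≠ 0 := fun h2 => hyr (by rw [h2, map_zero])
  by_contra h2
  apply h1
  have h3 := S'.pow_mem_H hy' r
  rwa [S'.bounded _ _ (Or.inr (by omega)), Submodule.mem_bot] at h3

omit [FiniteDimensional ℂ C'] [FiniteDimensional ℂ D'] in
/-- the ranks on the product -/
theorem rank_le_product (h : IsHochschildIso P Q phi) (hM : IsMukaiIsometry X Y phi)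
    {S : HodgeRing (2 * r) C} {Z : HodgeRing b D} {S' : HodgeRing (2 * r) C'}
    {Z' : HodgeRing b D'} (U : Product X S Z) (U' : Product Y S' Z')
    (hS : S.FormsNondegenerate r) {x : C} (hx : x ∈ S.H 0 2) (hxr : x ^ r ≠ 0)
    {y : C'} (hy : y ∈ S'.H 0 2) (hyr : y ^ r ≠ 0) (z1 : Z.h 0 1 = 0) (z2 : Z.h 0 2 = 0)
    {m : ℕ} (hm : m ≤ r) (d : ℤ) :
    X.rk (U.fst (x ^ (r - m))) d ≤ Y.rk (U'.fst (y ^ (r - m))) d := by
  have hY : U'.fst y ∈ Y.H 0 2 := U'.fst_mem _ _ _ hy
  have h0 : U'.fst y ^ r ≠ 0 := by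
    rw [← map_pow]
    intro h1
    exact hyr (U'.fst_inj _ h1)
  have hE := (evalE_spec (P := P) h P.eval hY).1
  have hEr := evalE_pow_ne (P := P) (X := X) h hY h0
  obtain ⟨x', hx', e⟩ := U.low_mem (k := 2) (fun l _ _ => by
    obtain rfl | rfl : l = 1 ∨ l = 2 := by omega
    · exact z1
    · exact z2) hE
  rw [← e, ← map_pow] at hEr
  have hxr' : x' ^ r ≠ 0 := fun h2 => hEr (by rw [h2, map_zero])
  have h1 : X.rk (U.fst (x ^ (r - m))) d = X.rk (U.fst (x' ^ (r - m))) d := by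
    rw [U.rk_fst S.hbasis Z.hbasis, U.rk_fst S.hbasis Z.hbasis]
    refine Finset.sum_congr rfl fun j _ => ?_
    rw [S.rk_pow rfl hS hx hxr _ hm, S.rk_pow rfl hS hx' hxr' _ hm]
  have h2 : U.fst (x' ^ (r - m)) = evalE X phi (U'.fst y ^ (r - m)) := by
    rw [evalE_pow h hY, ← e]
    exact map_pow U.fst x' (r - m)
  have h3 : U'.fst (y ^ (r - m)) = U'.fst y ^ (r - m) := map_pow U'.fst y (r - m)
  rw [h1, h2, h3]
  exact rk_le h hM (Y.pow_mem_H hY _) d

/-- forms generated in degrees one and two -/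
theorem h_forms (h : IsHochschildIso P Q phi) {S : HodgeRing (2 * r) C} {Z : HodgeRing b D}
    {S' : HodgeRing (2 * r) C'} {Z' : HodgeRing b D'} (U : Product X S Z) (U' : Product Y S' Z')
    (gS : ∀ k, S.H 0 k ≤ S.genPart k) (gS' : ∀ k, S'.H 0 k ≤ S'.genPart k)
    (z1 : Z.h 0 1 = 0) (z2 : Z.h 0 2 = 0) (z1' : Z'.h 0 1 = 0) (z2' : Z'.h 0 2 = 0) (k : ℕ) :
    S.h 0 k = S'.h 0 k := by
  have e1 : S.H 0 k = S.lowPart k := le_antisymm (gS k) inf_le_right
  have e2 : S'.H 0 k = S'.lowPart k := le_antisymm (gS' k) inf_le_right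
  unfold HodgeRing.h
  rw [e1, e2, ← U.finrank_lowPart z1 z2, ← U'.finrank_lowPart z1' z2']
  exact lowPart_finrank h P.eval P.kerOne P.kerTwo Q.eval Q.kerOne Q.kerTwo k

/-- the case of equal dimensions -/
theorem product_aux (h : IsHochschildIso P Q phi) (hM : IsMukaiIsometry X Y phi)
    {S : HodgeRing (2 * r) C} {Z : HodgeRing b D} {S' : HodgeRing (2 * r) C'}
    {Z' : HodgeRing b D'} (U : Product X S Z) (U' : Product Y S' Z')
    (hS : S.FormsNondegenerate r) (hS' : S'.FormsNondegenerate r)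
    (hg : b = 0 ∨ (∀ k, S.H 0 k ≤ S.genPart k) ∧ ∀ k, S'.H 0 k ≤ S'.genPart k)
    (ex : ∃ x ∈ S.H 0 2, x ^ r ≠ 0) (ex' : ∃ x ∈ S'.H 0 2, x ^ r ≠ 0)
    (z1 : Z.h 0 1 = 0) (z2 : Z.h 0 2 = 0) (z1' : Z'.h 0 1 = 0) (z2' : Z'.h 0 2 = 0) :
    (∀ p q, S.h p q = S'.h p q) ∧ Z.gen (HodgeRing.wt 1) = Z'.gen (HodgeRing.wt 1) ∧
      Z.gen (HodgeRing.wt (-1)) = Z'.gen (HodgeRing.wt (-1)) := by
  obtain ⟨x, hx, hxr⟩ := ex
  obtain ⟨y, hy, hyr⟩ := ex'
  -- the ranks on the products
  have hrk : ∀ m ≤ r, ∀ d, X.rk (U.fst (x ^ (r - m))) d = Y.rk (U'.fst (y ^ (r - m))) d := by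
    intro m hm d
    apply le_antisymm
    · exact rank_le_product h hM U U' hS hx hxr hy hyr z1 z2 hm d
    · exact rank_le_product h.symm hM.symm U' U hS' hy hyr hx hxr z1' z2' hm d
  have hL : ∀ m ≤ r, S.rkL (x ^ (r - m)) * Z.gen (HodgeRing.wt 1) =
      S'.rkL (y ^ (r - m)) * Z'.gen (HodgeRing.wt 1) := by
    intro m hm
    rw [← U.rkL_fst, ← U'.rkL_fst]
    ext d
    rw [X.coeff_rkL, Y.coeff_rkL, hrk m hm d]
  -- the top power
  have htop : ((∀ k, S.H 0 k ≤ S.genPart k) ∧ ∀ k, S'.H 0 k ≤ S'.genPart k) →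
      S.rkL (x ^ (r - 0)) = S'.rkL (y ^ (r - 0)) := by
    rintro ⟨gS, gS'⟩
    have hform := h_forms h U U' gS gS' z1 z2 z1' z2'
    ext d
    rw [S.coeff_rkL, S'.coeff_rkL, S.rk_pow rfl hS hx hxr d (Nat.zero_le r),
      S'.rk_pow rfl hS' hy hyr d (Nat.zero_le r)]
    have h1 : finrank ℂ (S.pc d 0) = finrank ℂ (S'.pc d 0) := by
      rcases lt_or_ge d 0 with hd | hd
      · rw [S.pc_eq_bot (by omega), S'.pc_eq_bot (by omega), finrank_bot, finrank_bot]
      · obtain ⟨p, rfl⟩ := Int.eq_ofNat_of_zero_le hd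
        rw [S.finrank_pc _ 0 p (by simp), S'.finrank_pc _ 0 p (by simp), S.h_conj, S'.h_conj,
          hform]
    unfold HodgeRing.ps
    rw [zero_add, Finset.sum_range_one, Finset.sum_range_one, Finset.sum_range_zero,
      Finset.sum_range_zero, h1]
  -- the product with the columns of the second factor is not zero
  have hne : S.rkL (x ^ (r - 0)) * Z.gen (HodgeRing.wt 1) ≠ 0 := by
    rw [← U.rkL_fst]
    intro h0
    have h1 := congrArg (fun f => f.coeff (0 : ℤ)) h0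
    have h2 : (X.rkL (U.fst (x ^ (r - 0)))).coeff 0 = 0 := h1
    rw [X.coeff_rkL, Nat.cast_eq_zero] at h2
    unfold HodgeRing.rk at h2
    rw [Submodule.finrank_eq_zero] at h2
    have h3 : LinearMap.mulLeft ℂ (U.fst (x ^ (r - 0))) 1 ∈
        (X.column 0).map (LinearMap.mulLeft ℂ (U.fst (x ^ (r - 0)))) :=
      ⟨1, X.mem_column (i := 0) (by simp) X.one_mem, rfl⟩
    rw [h2, Submodule.mem_bot, LinearMap.mulLeft_apply, mul_one] at h3
    exact hxr (U.fst_inj _ h3)
  have hne1 := left_ne_zero_of_mul hne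
  have hne2 := right_ne_zero_of_mul hne
  have hcol : Z.gen (HodgeRing.wt 1) = Z'.gen (HodgeRing.wt 1) := by
    rcases hg with rfl | hg
    · unfold HodgeRing.gen
      refine Finset.sum_congr rfl fun x hx => ?_
      rw [zero_add, Finset.range_one, Finset.singleton_product_singleton,
        Finset.mem_singleton] at hx
      rw [hx, show Z.h (0, 0).1 (0, 0).2 = 1 from Z.connected,
        show Z'.h (0, 0).1 (0, 0).2 = 1 from Z'.connected]
    · have h1 := hL 0 (Nat.zero_le r)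
      rw [← htop hg] at h1
      exact mul_left_cancel₀ hne1 h1
  have hSS : ∀ p q, S.h p q = S'.h p q := by
    refine h_eq_of_ranks fun m hm d => ?_
    have h1 := hL m hm
    rw [← hcol] at h1
    have h2 := mul_right_cancel₀ hne2 h1
    have h3 := congrArg (fun f => f.coeff d) h2
    have h4 : (S.rkL (x ^ (r - m))).coeff d = (S'.rkL (y ^ (r - m))).coeff d := h3
    rw [S.coeff_rkL, S'.coeff_rkL, S.rk_pow rfl hS hx hxr d hm,
      S'.rk_pow rfl hS' hy hyr d hm] at h4
    exact_mod_cast h4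
  refine ⟨hSS, hcol, ?_⟩
  -- the signatures
  have hsig := gen_signature hM
  rw [U.gen_mul _ (HodgeRing.wt_add (-1)), U'.gen_mul _ (HodgeRing.wt_add (-1)),
    gen_congr S S' (HodgeRing.wt (-1)) hSS] at hsig
  refine mul_left_cancel₀ ?_ hsig
  intro h0
  have h1 := congrArg (fun f => f.coeff ((2 * r : ℕ) : ℤ)) h0
  have h2 : (S'.gen (HodgeRing.wt (-1))).coeff ((2 * r : ℕ) : ℤ) = 0 := h1
  rw [S'.coeff_gen_cut (-1) le_rfl, Nat.sub_self, zero_add, Finset.sum_range_one, pow_zero,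
    one_mul, add_zero, Nat.cast_eq_zero, S'.h_conj] at h2
  unfold HodgeRing.h at h2
  rw [Submodule.finrank_eq_zero] at h2
  have h3 := S'.pow_mem_H hy r
  rw [h2, Submodule.mem_bot] at h3
  exact hyr h3

/-- Derived equivalent products of a symplectic variety and a variety without one- and two-forms:
the symplectic factors have the same Hodge numbers and the second factors have the same columns
and signatures; in small dimension the Hodge numbers agree. -/
theorem product_main (h : IsHochschildIso P Q phi) (hM : IsMukaiIsometry X Y phi)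
    {r r' b b' : ℕ} {S : HodgeRing (2 * r) C} {Z : HodgeRing b D} {S' : HodgeRing (2 * r') C'}
    {Z' : HodgeRing b' D'} (U : Product X S Z) (U' : Product Y S' Z')
    (hS : S.FormsNondegenerate r) (hS' : S'.FormsNondegenerate r')
    (hg : b = 0 ∨ (∀ k, S.H 0 k ≤ S.genPart k) ∧ ∀ k, S'.H 0 k ≤ S'.genPart k)
    (ex : ∃ x ∈ S.H 0 2, x ^ r ≠ 0) (ex' : ∃ x ∈ S'.H 0 2, x ^ r' ≠ 0)
    (z1 : Z.h 0 1 = 0) (z2 : Z.h 0 2 = 0) (z1' : Z'.h 0 1 = 0) (z2' : Z'.h 0 2 = 0) :
    (∀ p q, S.h p q = S'.h p q) ∧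
      (∀ s : ℤ, s = 1 ∨ s = -1 → ∀ c, ∑ j ∈ Finset.range (n + 1), s ^ j * (Z.h (c + j) j : ℤ) =
        ∑ j ∈ Finset.range (n + 1), s ^ j * (Z'.h (c + j) j : ℤ)) ∧
      (b ≤ 4 ∨ b = 5 ∧ Z.chernNumber = Z'.chernNumber → ∀ p q, X.h p q = Y.h p q) := by
  obtain rfl : r = r' := le_antisymm (dim_le h U U' ex z1' z2') (dim_le h.symm U' U ex' z1 z2)
  obtain rfl : b = b' := by
    have h1 := U.dim
    have h2 := U'.dim
    omega
  obtain ⟨hSS, hcol, hsig⟩ := product_aux h hM U U' hS hS' hg ex ex' z1 z2 z1' z2'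
  refine ⟨hSS, ?_, fun hb => ?_⟩
  · have cut : ∀ f : ℕ → ℤ, (∀ j, b < j → f j = 0) →
        ∑ j ∈ Finset.range (n + 1), f j = ∑ j ∈ Finset.range (b + 1), f j := by
      intro f hf
      symm
      refine Finset.sum_subset (fun j hj => ?_) fun j _ hj => ?_
      · rw [Finset.mem_range] at hj ⊢
        have := U.dim
        omega
      · rw [Finset.mem_range] at hj
        exact hf j (by omega)
    intro s hs c
    have h1 : Z.gen (HodgeRing.wt s) = Z'.gen (HodgeRing.wt s) := by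
      rcases hs with rfl | rfl
      · exact hcol
      · exact hsig
    have h2 : (Z.gen (HodgeRing.wt s)).coeff (c : ℤ) = (Z'.gen (HodgeRing.wt s)).coeff (c : ℤ) := by
      rw [h1]
    rw [Z.coeff_gen_nat, Z'.coeff_gen_nat] at h2
    rw [cut, cut, h2]
    · intro j hj
      rw [Z'.h_eq_zero (by omega)]
      simp
    · intro j hj
      rw [Z.h_eq_zero (by omega)]
      simp
  · have hZ : ∀ p q, Z.h p q = Z'.h p q :=
      small_main (by omega) Z Z' hcol hsig z1 z2 z1' z2' fun h5 => by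
        rcases hb with hb | hb
        · omega
        · exact hb.2
    refine h_eq_of_gen X Y ?_
    rw [U.gen_mul _ uw_add, U'.gen_mul _ uw_add, gen_congr S S' uw hSS, gen_congr Z Z' uw hZ]

end main

end Pool.Agent.Hodge81
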