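import Pool.Agent.Helper51.SY.HBasis
import Pool.Agent.Helper51.SY.PDefs

/-!
# Products of Hodge rings
-/

set_option autoImplicit false

namespace Pool.Agent.Hodge81

open Complex Module

section lin

variable {K V W ι : Type*} [Field K] [AddCommGroup V] [Module K V]

/-- the dimension of a direct sum of subspaces -/
theorem finrank_iSup_of_indep [FiniteDimensional K V] [Fintype ι] (U : ι → Submodule K V)
    (h : iSupIndep U) : finrank K (⨆ i, U i : Submodule K V) = ∑ i, finrank K (U i) := by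
  classical
  have key : ∀ s : Finset ι, finrank K (⨆ i ∈ s, U i : Submodule K V) =
      ∑ i ∈ s, finrank K (U i) := by
    intro s
    induction s using Finset.induction_on with
    | empty => simp
    | insert a s ha ih =>
      rw [Finset.sum_insert ha, Finset.iSup_insert, ← ih]
      have h1 : U a ⊓ (⨆ i ∈ s, U i) = ⊥ := by
        rw [← disjoint_iff]
        refine (h a).mono_right (iSup₂_le fun i hi => ?_)
        exact le_iSup₂ (f := fun (i : ι) (_ : i ≠ a) => U i) i (fun e => ha (e ▸ hi))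
      have h2 := Submodule.finrank_sup_add_finrank_inf_eq (U a) (⨆ i ∈ s, U i)
      rw [h1, finrank_bot, add_zero] at h2
      exact h2
  have h1 := key Finset.univ
  have h2 : (⨆ i ∈ (Finset.univ : Finset ι), U i) = ⨆ i, U i :=
    iSup_congr fun i => iSup_pos (Finset.mem_univ i)
  rwa [h2] at h1

end lin

namespace Product

variable {n a b : ℕ} {A C D : Type*} [Ring A] [Algebra ℂ A] [Ring C] [Algebra ℂ C]
  [Ring D] [Algebra ℂ D] {X : HodgeRing n A} {S : HodgeRing a C} {Z : HodgeRing b D}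
  (Q : Product X S Z) {ι κ : Type*} (β : HBasis S ι) (γ : HBasis Z κ)

/-- the homogeneous basis of a product -/
noncomputable def hbasis : HBasis X (ι × κ) where
  basis := (β.basis.tensorProduct γ.basis).map (LinearEquiv.ofBijective _ Q.kuenneth)
  deg x := β.deg x.1 + γ.deg x.2
  mem x := by
    rw [Basis.map_apply]
    obtain ⟨i, j⟩ := x
    rw [Basis.tensorProduct_apply]
    exact X.mul_mem _ _ _ _ _ _ (Q.fst_mem _ _ _ (β.mem i)) (Q.snd_mem _ _ _ (γ.mem j))

theorem hbasis_apply (i : ι) (j : κ) :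
    (Q.hbasis β γ).basis (i, j) = Q.fst (β.basis i) * Q.snd (γ.basis j) := by
  change ((β.basis.tensorProduct γ.basis).map (LinearEquiv.ofBijective _ Q.kuenneth)) (i, j) = _
  rw [Basis.map_apply, Basis.tensorProduct_apply]
  rfl

/-- multiplication by a class of the second factor -/
noncomputable def ins (j : κ) : C →ₗ[ℂ] A :=
  (LinearMap.mulRight ℂ (Q.snd (γ.basis j))) ∘ₗ Q.fst.toLinearMap

theorem ins_apply (j : κ) (c : C) : Q.ins γ j c = Q.fst c * Q.snd (γ.basis j) := rfl

include β in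
theorem ins_inj (j : κ) : ∀ c, Q.ins γ j c = 0 → c = 0 := by
  have h1 : LinearIndependent ℂ fun i => (Q.hbasis β γ).basis (i, j) :=
    (Q.hbasis β γ).basis.linearIndependent.comp (fun i => (i, j)) fun i i' h =>
      (Prod.ext_iff.1 h).1
  have h2 : Q.ins γ j = (Finsupp.linearCombination ℂ fun i => (Q.hbasis β γ).basis (i, j)) ∘ₗ
      β.basis.repr.toLinearMap := by
    refine β.basis.ext fun i => ?_
    rw [LinearMap.comp_apply, LinearEquiv.coe_coe, Basis.repr_self,
      Finsupp.linearCombination_single, one_smul, hbasis_apply, ins_apply]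
  intro c hc
  rw [h2, LinearMap.comp_apply] at hc
  have h3 := (linearIndependent_iff.1 h1) _ hc
  simpa using h3

theorem ins_range (j : κ) : LinearMap.range (Q.ins γ j) ≤
    Submodule.span ℂ ((Q.hbasis β γ).basis '' {x | x.2 = j}) := by
  rw [LinearMap.range_eq_map, ← β.basis.span_eq, Submodule.map_span, Submodule.span_le]
  rintro _ ⟨_, ⟨i, rfl⟩, rfl⟩
  refine Submodule.subset_span ⟨(i, j), rfl, ?_⟩
  rw [hbasis_apply, ins_apply]

include β in
theorem ins_indep : iSupIndep fun j => LinearMap.range (Q.ins γ j) := by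
  intro j
  have h1 : Disjoint {x : ι × κ | x.2 = j} {x : ι × κ | x.2 ≠ j} := by
    rw [Set.disjoint_left]
    intro x h h'
    exact h' h
  have h2 := (Q.hbasis β γ).basis.linearIndependent.disjoint_span_image h1
  refine h2.mono (Q.ins_range β γ j) (iSup₂_le fun i hi => (Q.ins_range β γ i).trans ?_)
  refine Submodule.span_mono (Set.image_mono fun x hx => ?_)
  change x.2 ≠ j
  have : x.2 = i := hx
  rwa [this]

include β in
/-- the columns of a product -/
theorem column (d : ℤ) : X.column d =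
    ⨆ j, (S.column (d - (((γ.deg j).1 : ℤ) - (γ.deg j).2))).map (Q.ins γ j) := by
  apply le_antisymm
  · rw [(Q.hbasis β γ).column_eq d, Submodule.span_le]
    rintro _ ⟨⟨i, j⟩, hij, rfl⟩
    refine Submodule.mem_iSup_of_mem j ⟨β.basis i, ?_, (Q.hbasis_apply β γ i j).symm⟩
    refine S.mem_column ?_ (β.mem i)
    have h1 : (((β.deg i + γ.deg j).1 : ℕ) : ℤ) - ((β.deg i + γ.deg j).2 : ℕ) = d := hij
    rw [Prod.fst_add, Prod.snd_add] at h1
    push_cast at h1
    omega
  · refine iSup_le fun j => ?_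
    rintro _ ⟨c, hc, rfl⟩
    refine S.column_induct (P := fun c => Q.ins γ j c ∈ X.column d) (fun p q hpq v hv => ?_)
      (by rw [map_zero]; exact Submodule.zero_mem _)
      (fun a b ha hb => by rw [map_add]; exact Submodule.add_mem _ ha hb) hc
    refine X.mem_column ?_ (X.mul_mem _ _ _ _ _ _ (Q.fst_mem _ _ _ hv)
      (Q.snd_mem _ _ _ (γ.mem j)))
    push_cast
    omega

theorem mul_ins (x : C) (j : κ) :
    LinearMap.mulLeft ℂ (Q.fst x) ∘ₗ Q.ins γ j = Q.ins γ j ∘ₗ LinearMap.mulLeft ℂ x := by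
  ext c
  change Q.fst x * (Q.fst c * _) = Q.fst (x * c) * _
  rw [map_mul, mul_assoc]

include β in
/-- the rank of a class of the first factor on the columns of the product -/
theorem rk_fst [FiniteDimensional ℂ A] [Fintype κ] (x : C) (d : ℤ) : X.rk (Q.fst x) d =
    ∑ j, S.rk x (d - (((γ.deg j).1 : ℤ) - (γ.deg j).2)) := by
  unfold HodgeRing.rk
  rw [Q.column β γ d, Submodule.map_iSup]
  have h1 : ∀ j, ((S.column (d - (((γ.deg j).1 : ℤ) - (γ.deg j).2))).map (Q.ins γ j)).map
      (LinearMap.mulLeft ℂ (Q.fst x)) =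
      ((S.column (d - (((γ.deg j).1 : ℤ) - (γ.deg j).2))).map (LinearMap.mulLeft ℂ x)).map
        (Q.ins γ j) := by
    intro j
    rw [← Submodule.map_comp, ← Submodule.map_comp, mul_ins]
  rw [iSup_congr h1, finrank_iSup_of_indep]
  · refine Finset.sum_congr rfl fun j _ => ?_
    exact finrank_map_of_inj' _ _ fun v _ hv => Q.ins_inj β γ j v hv
  · exact (Q.ins_indep β γ).mono fun j => LinearMap.map_le_range

end Product

section graded

variable {n a : ℕ} {A C : Type*} [Ring A] [Algebra ℂ A] [Ring C] [Algebra ℂ C]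
  {X : HodgeRing n A} {S : HodgeRing a C}

/-- an injective graded map reflects degrees -/
theorem mem_of_map_mem (f : C →ₗ[ℂ] A) (hf : ∀ c, f c = 0 → c = 0)
    (hfm : ∀ p q c, c ∈ S.H p q → f c ∈ X.H p q) {p q : ℕ} {c : C} (hc : f c ∈ X.H p q) :
    c ∈ S.H p q := by
  classical
  have h1 : c ∈ ⨆ x : ℕ × ℕ, S.H x.1 x.2 := by
    rw [S.internal.submodule_iSup_eq_top]
    trivial
  obtain ⟨g, hg, hsum⟩ := (Submodule.mem_iSup_iff_exists_finsupp _ _).1 h1
  have hsum' : ∑ i ∈ g.support, g i = c := hsum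
  have e : c = g (p, q) + ∑ i ∈ (insert (p, q) g.support).erase (p, q), g i := by
    rw [Finset.add_sum_erase _ _ (Finset.mem_insert_self _ g.support), ← hsum']
    refine Finset.sum_subset (Finset.subset_insert _ _) fun i _ hi => ?_
    simpa using hi
  have h2 : f (c - g (p, q)) ∈ X.H p q := by
    rw [map_sub]
    exact Submodule.sub_mem _ hc (hfm _ _ _ (hg (p, q)))
  have h3 : f (c - g (p, q)) ∈ ⨆ (i : ℕ × ℕ) (_ : i ≠ (p, q)), X.H i.1 i.2 := by
    have e' : c - g (p, q) = ∑ i ∈ (insert (p, q) g.support).erase (p, q), g i := by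
      rw [sub_eq_iff_eq_add']
      exact e
    rw [e', map_sum]
    refine Submodule.sum_mem _ fun i hi => ?_
    exact le_iSup₂ (f := fun (i : ℕ × ℕ) (_ : i ≠ (p, q)) => X.H i.1 i.2) i
      (Finset.mem_erase.1 hi).1 (hfm _ _ _ (hg i))
  have h4 := hf _ (Submodule.disjoint_def.1 (X.indep (p, q)) _ h2 h3)
  rw [sub_eq_zero] at h4
  rw [h4]
  exact hg (p, q)

theorem HodgeRing.nontrivial (X : HodgeRing n A) : Nontrivial A := by
  by_contra h
  rw [not_nontrivial_iff_subsingleton] at h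
  have h1 := X.connected
  have h2 : X.H 0 0 = ⊥ := by
    rw [eq_bot_iff]
    intro v _
    rw [Submodule.mem_bot]
    exact Subsingleton.elim _ _
  rw [h2, finrank_bot] at h1
  exact zero_ne_one h1

theorem HodgeRing.unit_span (X : HodgeRing n A) {v : A} (hv : v ∈ X.H 0 0) :
    ∃ c : ℂ, v = c • (1 : A) := by
  have := X.nontrivial
  obtain ⟨c, hc⟩ := (finrank_eq_one_iff_of_nonzero' (⟨1, X.one_mem⟩ : X.H 0 0) (by
    intro h6
    exact one_ne_zero (congrArg Subtype.val h6))).1 X.connected ⟨v, hv⟩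
  exact ⟨c, (congrArg Subtype.val hc).symm⟩

end graded

namespace Product

open scoped TensorProduct

variable {n a b : ℕ} {A C D : Type*} [Ring A] [Algebra ℂ A] [Ring C] [Algebra ℂ C]
  [Ring D] [Algebra ℂ D] {X : HodgeRing n A} {S : HodgeRing a C} {Z : HodgeRing b D}
  (Q : Product X S Z)

theorem fst_inj (c : C) (hc : Q.fst c = 0) : c = 0 := by
  have := Z.nontrivial
  have h2 : c ⊗ₜ[ℂ] (1 : D) = 0 := by
    apply Q.kuenneth.1
    rw [map_zero, TensorProduct.lift.tmul]
    change Q.fst c * Q.snd 1 = 0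
    rw [hc, zero_mul]
  refine Algebra.TensorProduct.includeLeft_injective (R := ℂ) (S := ℂ) (A := C) (B := D)
    (algebraMap ℂ D).injective ?_
  rw [map_zero]
  exact h2

/-- the forms of low degree come from the first factor if the second factor has none -/
theorem low_mem [FiniteDimensional ℂ C] [FiniteDimensional ℂ D] {k : ℕ}
    (hk : ∀ l, 1 ≤ l → l ≤ k → Z.h 0 l = 0) {x : A} (hx : x ∈ X.H 0 k) :
    ∃ c ∈ S.H 0 k, Q.fst c = x := by
  suffices h : X.H 0 k ≤ (S.H 0 k).map Q.fst.toLinearMap from h hx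
  have h1 := (Q.hbasis S.hbasis Z.hbasis).span_eq (0, k)
  change _ = X.H 0 k at h1
  rw [← h1, Submodule.span_le]
  rintro _ ⟨⟨i, j⟩, hij, rfl⟩
  rw [hbasis_apply]
  have h2 : S.hbasis.deg i + Z.hbasis.deg j = (0, k) := hij
  have h3 : (S.hbasis.deg i).1 + (Z.hbasis.deg j).1 = 0 := (Prod.ext_iff.1 h2).1
  have h4 : (S.hbasis.deg i).2 + (Z.hbasis.deg j).2 = k := (Prod.ext_iff.1 h2).2
  have h5 := S.hbasis.mem i
  have h6 := Z.hbasis.mem j
  have h7 : (S.hbasis.deg i).1 = 0 := by omega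
  have h8 : (Z.hbasis.deg j).1 = 0 := by omega
  rw [h7] at h5
  rw [h8] at h6
  rcases Nat.eq_zero_or_pos (Z.hbasis.deg j).2 with h9 | h9
  · rw [h9] at h6 h4
    rw [add_zero] at h4
    rw [h4] at h5
    obtain ⟨c, hc⟩ := Z.unit_span h6
    refine ⟨c • S.hbasis.basis i, Submodule.smul_mem _ _ h5, ?_⟩
    rw [hc]
    change Q.fst (c • S.hbasis.basis i) = _
    rw [map_smul, map_smul, map_one, mul_smul_comm, mul_one]
  · have h10 := hk _ h9 (by omega)
    unfold HodgeRing.h at h10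
    rw [Submodule.finrank_eq_zero.1 h10, Submodule.mem_bot] at h6
    exact absurd h6 (Z.hbasis.basis.ne_zero j)

theorem lowAlg_eq [FiniteDimensional ℂ C] [FiniteDimensional ℂ D] (h1 : Z.h 0 1 = 0)
    (h2 : Z.h 0 2 = 0) : X.lowAlg = S.lowAlg.map Q.fst := by
  unfold HodgeRing.lowAlg
  rw [AlgHom.map_adjoin]
  congr 1
  ext x
  constructor
  · rintro (hx | hx)
    · obtain ⟨c, hc, rfl⟩ := Q.low_mem (k := 1) (fun l _ _ => by
        obtain rfl : l = 1 := by omega
        exact h1) hx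
      exact ⟨c, Or.inl hc, rfl⟩
    · obtain ⟨c, hc, rfl⟩ := Q.low_mem (k := 2) (fun l _ _ => by
        obtain rfl | rfl : l = 1 ∨ l = 2 := by omega
        · exact h1
        · exact h2) hx
      exact ⟨c, Or.inr hc, rfl⟩
  · rintro ⟨c, hc | hc, rfl⟩
    · exact Or.inl (Q.fst_mem _ _ _ hc)
    · exact Or.inr (Q.fst_mem _ _ _ hc)

theorem lowPart_eq [FiniteDimensional ℂ C] [FiniteDimensional ℂ D] (h1 : Z.h 0 1 = 0)
    (h2 : Z.h 0 2 = 0) (k : ℕ) : X.lowPart k = (S.lowPart k).map Q.fst.toLinearMap := by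
  unfold HodgeRing.lowPart
  rw [Q.lowAlg_eq h1 h2]
  ext x
  constructor
  · rintro ⟨⟨c, hc, rfl⟩, hx⟩
    exact ⟨c, ⟨hc, mem_of_map_mem Q.fst.toLinearMap Q.fst_inj Q.fst_mem hx⟩, rfl⟩
  · rintro ⟨c, ⟨hc, hc'⟩, rfl⟩
    exact ⟨⟨c, hc, rfl⟩, Q.fst_mem _ _ _ hc'⟩

include Q in
theorem finrank_lowPart [FiniteDimensional ℂ C] [FiniteDimensional ℂ D] (h1 : Z.h 0 1 = 0)
    (h2 : Z.h 0 2 = 0) (k : ℕ) : finrank ℂ (X.lowPart k) = finrank ℂ (S.lowPart k) := by
  rw [Q.lowPart_eq h1 h2]
  exact finrank_map_of_inj' _ _ fun v _ hv => Q.fst_inj v hv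

end Product

end Pool.Agent.Hodge81
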