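import Pool.Agent.Helper51.SY.Lead

/-!
# Semicontinuity of the rank of a holomorphic form on the columns
-/

set_option autoImplicit false

namespace Pool.Agent.Hodge81

open Complex Module

namespace HodgeRing

variable {n : ℕ} {A : Type*} [Ring A] [Algebra ℂ A] (X : HodgeRing n A)

/-- the piece `H^{j+d,j}` of the column of index `d` -/
def pc (d : ℤ) (j : ℕ) : Submodule ℂ A := if 0 ≤ (j : ℤ) + d then X.H ((j : ℤ) + d).toNat j else ⊥

theorem mem_pc {d : ℤ} {p q : ℕ} (h : (p : ℤ) - q = d) {v : A} (hv : v ∈ X.H p q) :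
    v ∈ X.pc d q := by
  have h1 : (q : ℤ) + d = p := by omega
  unfold pc
  rw [if_pos (by omega), h1, Int.toNat_natCast]
  exact hv

theorem pc_le_column (d : ℤ) (j : ℕ) : X.pc d j ≤ X.column d := by
  unfold pc
  split_ifs with h
  · intro v hv
    refine X.mem_column ?_ hv
    omega
  · exact bot_le

/-- elements of a piece -/
theorem of_mem_pc {d : ℤ} {j : ℕ} {v : A} (hv : v ∈ X.pc d j) :
    v = 0 ∨ ∃ p : ℕ, (p : ℤ) - j = d ∧ v ∈ X.H p j := by
  unfold pc at hv
  split_ifs at hv with h
  · exact Or.inr ⟨_, by omega, hv⟩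
  · exact Or.inl ((Submodule.mem_bot ℂ).1 hv)

theorem column_eq_firsts (d : ℤ) {N : ℕ} (hN : n < N) : X.column d = firsts (X.pc d) N := by
  apply le_antisymm
  · refine iSup₂_le fun x hx => ?_
    rcases Nat.lt_or_ge x.2 N with h | h
    · intro v hv
      exact le_firsts (X.pc d) h (X.mem_pc hx hv)
    · rw [X.bounded _ _ (Or.inr (by omega))]
      exact bot_le
  · exact iSup₂_le fun j _ => X.pc_le_column d j

theorem indep_pc (d : ℤ) : iSupIndep (X.pc d) := by
  intro j
  rw [Submodule.disjoint_def]
  intro v hv hv'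
  rcases X.of_mem_pc hv with rfl | ⟨p, hp, hv1⟩
  · rfl
  · have h1 := X.indep (p, j)
    refine Submodule.disjoint_def.1 h1 v hv1 ?_
    refine (iSup₂_le fun i hi => ?_ : (⨆ (i : ℕ) (_ : i ≠ j), X.pc d i) ≤
      ⨆ (x : ℕ × ℕ) (_ : x ≠ (p, j)), X.H x.1 x.2) hv'
    intro w hw
    rcases X.of_mem_pc hw with rfl | ⟨p', hp', hw1⟩
    · exact Submodule.zero_mem _
    · exact le_iSup₂ (f := fun (x : ℕ × ℕ) (_ : x ≠ (p, j)) => X.H x.1 x.2) (p', i)
        (fun h => hi (Prod.ext_iff.1 h).2) hw1

theorem expo_mul_column (d : ℤ) (z : ℂ) {v : A} (hv : v ∈ X.column d) :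
    X.expo z * v ∈ X.column d := by
  refine X.column_induct (P := fun v => X.expo z * v ∈ X.column d) (fun p q hpq v hv => ?_)
    (by rw [mul_zero]; exact Submodule.zero_mem _)
    (fun a b ha hb => by rw [mul_add]; exact Submodule.add_mem _ ha hb) hv
  unfold expo
  rw [Finset.sum_mul]
  refine Submodule.sum_mem _ fun j _ => ?_
  rw [smul_mul_assoc]
  refine Submodule.smul_mem _ _ (X.mem_column (p := p + j) (q := q + j) (by push_cast; omega) ?_)
  exact X.pow_mem X.omega_mem hv j

theorem map_expo_column (d : ℤ) (z : ℂ) :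
    (X.column d).map (LinearMap.mulLeft ℂ (X.expo z)) = X.column d := by
  apply le_antisymm
  · rintro _ ⟨v, hv, rfl⟩
    exact X.expo_mul_column d z hv
  · intro v hv
    exact ⟨X.expo (-z) * v, X.expo_mul_column d (-z) hv, X.expo_mul_neg z v⟩

/-- the rank of the multiplication by `x` on the column of index `d` -/
noncomputable def rk (x : A) (d : ℤ) : ℕ := finrank ℂ ((X.column d).map (LinearMap.mulLeft ℂ x))

theorem mul_pc {k : ℕ} {x : A} (hx : x ∈ X.H 0 k) (d : ℤ) (j : ℕ) :
    (X.pc d j).map (LinearMap.mulLeft ℂ x) ≤ X.pc (d - k) (j + k) := by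
  rintro _ ⟨v, hv, rfl⟩
  rcases X.of_mem_pc hv with rfl | ⟨p, hp, hv1⟩
  · rw [map_zero]
    exact Submodule.zero_mem _
  · have h1 := X.mul_mem 0 k p j x v hx hv1
    rw [zero_add, add_comm k j] at h1
    exact X.mem_pc (by push_cast; omega) h1

end HodgeRing

section action

variable {n : ℕ} {A : Type*} [Ring A] [Algebra ℂ A] {X : HodgeRing n A} (P : PolyvectorAction X)

theorem PolyvectorAction.del_total {k : ℕ} {f : Module.End ℂ A} (hf : f ∈ P.total k) :
    delE X f ∈ P.total k := by
  refine P.total_induct (Q := fun f => delE X f ∈ P.total k) (fun a b hab f hf => ?_)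
    (by rw [map_zero]; exact Submodule.zero_mem _)
    (fun f g hf hg => by rw [map_add]; exact Submodule.add_mem _ hf hg) hf
  rw [delE_apply]
  rcases b with - | b
  · rw [P.delta_functions hf]
    exact Submodule.zero_mem _
  · exact P.mem_total (by omega) (P.delta_mem hf)

/-- the leading part of a contraction is the multiplication by its value at `1` -/
theorem PolyvectorAction.lead {k : ℕ} {g : Module.End ℂ A} (hg : g ∈ P.total k) (d : ℤ) {j : ℕ}
    {v : A} (hv : v ∈ X.pc d j) : g v - g 1 * v ∈ firsts (X.pc (d - k)) (j + k) := by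
  rcases X.of_mem_pc hv with rfl | ⟨p, hp, hv1⟩
  · rw [map_zero, mul_zero, sub_zero]
    exact Submodule.zero_mem _
  · refine P.total_induct (Q := fun g => g v - g 1 * v ∈ firsts (X.pc (d - k)) (j + k))
      (fun a b hab g hg => ?_) (by simp) (fun f g hf hg => ?_) hg
    · rcases Nat.eq_zero_or_pos b with rfl | hb
      · obtain ⟨x, -, rfl⟩ := (P.functions a g).1 hg
        rw [LinearMap.mulLeft_apply, LinearMap.mulLeft_apply, mul_one, sub_self]
        exact Submodule.zero_mem _
      · rw [P.vanish a b 0 0 g 1 hg hb X.one_mem, zero_mul, sub_zero]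
        rcases Nat.lt_or_ge p b with h | h
        · rw [P.vanish a b p j g v hg h hv1]
          exact Submodule.zero_mem _
        · obtain ⟨p', rfl⟩ : ∃ p', p = p' + b := ⟨p - b, by omega⟩
          have h1 := P.degree a b p' j g v hg hv1
          exact le_firsts (X.pc (d - k)) (show j + a < j + k by omega)
            (X.mem_pc (by push_cast at hp ⊢; omega) h1)
    · have e : (f + g) v - (f + g) 1 * v = (f v - f 1 * v) + (g v - g 1 * v) := by
        rw [LinearMap.add_apply, LinearMap.add_apply, add_mul]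
        abel
      rw [e]
      exact Submodule.add_mem _ hf hg

end action

section main

variable {n : ℕ} {A B : Type*} [Ring A] [Algebra ℂ A] [FiniteDimensional ℂ A]
  [Ring B] [Algebra ℂ B] [FiniteDimensional ℂ B]
  {X : HodgeRing n A} {Y : HodgeRing n B} {P : PolyvectorAction X} {Q : PolyvectorAction Y}
  {phi : A ≃ₗ[ℂ] B}

/-- Semicontinuity: the rank of a form on a column does not grow under the evaluation map -/
theorem rk_le (h : IsHochschildIso P Q phi) (hM : IsMukaiIsometry X Y phi) {k : ℕ} {y : B}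
    (hy : y ∈ Y.H 0 k) (d : ℤ) : X.rk (evalE X phi y) d ≤ Y.rk y d := by
  have hf : tr phi y ∈ P.total k := tr_mem h hy
  obtain ⟨g, hg, hfg⟩ := exists_conj_expo (P.total k) (fun f hf => P.del_total hf) hf I
  obtain ⟨hE, hE'⟩ := evalE_spec h P.eval hy
  have h1 : g 1 = evalE X phi y := by
    have h2 := hfg 1
    rw [mul_one] at h2
    have h3 : tr phi y (X.expo I) = X.expo I * evalE X phi y := by
      rw [tr_apply, hE', LinearEquiv.symm_apply_apply, X.expo_central]
    rw [h3] at h2
    have h4 := congrArg (fun a => X.expo (-I) * a) h2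
    simp only [X.expo_neg_mul] at h4
    exact h4.symm
  have h5 : X.rk (evalE X phi y) d ≤ finrank ℂ ((X.column d).map g) := by
    unfold HodgeRing.rk
    rw [X.column_eq_firsts d (Nat.lt_succ_self n)]
    refine rank_lead (s := k) (X.indep_pc (d - k)) (fun j => X.mul_pc hE d j) (fun j v hv => ?_) _
    rw [LinearMap.mulLeft_apply, ← h1]
    exact P.lead hg d hv
  have h6 : finrank ℂ ((X.column d).map g) = finrank ℂ ((X.column d).map (tr phi y)) := by
    have h7 : (X.column d).map (tr phi y) =
        ((X.column d).map g).map (LinearMap.mulLeft ℂ (X.expo I)) := by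
      conv_lhs => rw [← X.map_expo_column d I]
      rw [← Submodule.map_comp, ← Submodule.map_comp]
      congr 1
      ext v
      exact hfg v
    rw [h7]
    refine (finrank_map_of_inj' _ _ fun v _ hv => ?_).symm
    exact HodgeRing.expo_mul_eq_zero X hv
  have h8 : finrank ℂ ((X.column d).map (tr phi y)) = Y.rk y d := by
    unfold HodgeRing.rk
    rw [← hM.column d, ← Submodule.map_comp]
    have h9 : (X.column d).map (tr phi y) =
        ((X.column d).map (LinearMap.mulLeft ℂ y ∘ₗ phi.toLinearMap)).map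
          phi.symm.toLinearMap := by
      rw [← Submodule.map_comp]
      rfl
    rw [h9]
    exact finrank_map_of_inj' _ _ fun v _ hv => phi.symm.map_eq_zero_iff.1 hv
  rw [← h8, ← h6]
  exact h5

end main

end Pool.Agent.Hodge81
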