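import Pool.Agent.Helper51.SY.Gen

/-!
# Alternating sums of the columns
-/

set_option autoImplicit false

namespace Pool.Agent.Hodge81

open Complex Module LaurentPolynomial

theorem alt_odd (f : ℕ → ℤ) {m : ℕ} (hm : m % 2 = 1) (hf : ∀ j ≤ m, f (m - j) = f j) :
    ∑ j ∈ Finset.range (m + 1), (-1) ^ j * f j = 0 := by
  have h1 := Finset.sum_range_reflect (fun j => (-1 : ℤ) ^ j * f j) (m + 1)
  have h2 : ∑ j ∈ Finset.range (m + 1), (-1 : ℤ) ^ (m + 1 - 1 - j) * f (m + 1 - 1 - j) =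
      ∑ j ∈ Finset.range (m + 1), -((-1 : ℤ) ^ j * f j) := by
    refine Finset.sum_congr rfl fun j hj => ?_
    rw [Finset.mem_range] at hj
    rw [Nat.add_sub_cancel, hf j (by omega)]
    have h3 : (-1 : ℤ) ^ (m - j) = -(-1) ^ j := by
      have h4 : (-1 : ℤ) ^ (m - j) * (-1) ^ j = (-1) ^ m := by
        rw [← pow_add, Nat.sub_add_cancel (by omega)]
      have h5 : (-1 : ℤ) ^ m = -1 := Odd.neg_one_pow (Nat.odd_iff.2 hm)
      have h6 : (-1 : ℤ) ^ j * (-1) ^ j = 1 := by
        rw [← pow_add, ← two_mul, pow_mul]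
        norm_num
      rw [h5] at h4
      calc (-1 : ℤ) ^ (m - j) = (-1) ^ (m - j) * ((-1) ^ j * (-1) ^ j) := by rw [h6, mul_one]
        _ = -(-1) ^ j := by rw [← mul_assoc, h4, neg_one_mul]
    rw [h3]
    ring
  rw [h2, Finset.sum_neg_distrib] at h1
  linarith

theorem alt_even (f : ℕ → ℤ) (r : ℕ) (hf : ∀ k ≤ r, f (r - k) = f (r + k)) :
    ∑ j ∈ Finset.range (2 * r + 1), (-1) ^ j * f j =
      (-1) ^ r * (2 * ∑ k ∈ Finset.range (r + 1), (-1) ^ k * f (r - k) - f r) := by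
  have h1 : ∑ j ∈ Finset.range (r + 1), (-1 : ℤ) ^ j * f j =
      (-1) ^ r * ∑ k ∈ Finset.range (r + 1), (-1) ^ k * f (r - k) := by
    rw [← Finset.sum_range_reflect, Finset.mul_sum]
    refine Finset.sum_congr rfl fun j hj => ?_
    rw [Finset.mem_range] at hj
    rw [Nat.add_sub_cancel, ← mul_assoc]
    congr 1
    have h4 : (-1 : ℤ) ^ (r - j) * (-1) ^ j = (-1) ^ r := by
      rw [← pow_add, Nat.sub_add_cancel (by omega)]
    have h6 : (-1 : ℤ) ^ j * (-1) ^ j = 1 := by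
      rw [← pow_add, ← two_mul, pow_mul]
      norm_num
    rw [← h4, mul_assoc, h6, mul_one]
  have h2 : ∑ j ∈ Finset.range r, (-1 : ℤ) ^ (r + 1 + j) * f (r + 1 + j) =
      (-1) ^ r * (∑ k ∈ Finset.range (r + 1), (-1) ^ k * f (r - k) - f r) := by
    rw [Finset.sum_range_succ', pow_zero, one_mul, Nat.sub_zero, add_sub_cancel_right,
      Finset.mul_sum]
    refine Finset.sum_congr rfl fun j hj => ?_
    rw [Finset.mem_range] at hj
    rw [hf (j + 1) (by omega), show r + 1 + j = r + (j + 1) by omega, pow_add]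
    ring
  rw [show 2 * r + 1 = (r + 1) + r by omega, Finset.sum_range_add, h1, h2]
  ring

namespace HodgeRing

theorem cut_column {c m : ℕ} {A : Type*} [Ring A] [Algebra ℂ A] (W : HodgeRing (c + m) A) :
    ∑ j ∈ Finset.range (c + m + 1), (-1 : ℤ) ^ j * (W.h (c + j) j : ℤ) =
      ∑ j ∈ Finset.range (m + 1), (-1 : ℤ) ^ j * (W.h (c + j) j : ℤ) := by
  symm
  refine Finset.sum_subset (fun j hj => ?_) fun j _ hj => ?_
  · rw [Finset.mem_range] at hj ⊢
    omega
  · rw [Finset.mem_range] at hj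
    rw [W.h_eq_zero (by omega)]
    simp

theorem sym_even {c r : ℕ} {A : Type*} [Ring A] [Algebra ℂ A] [FiniteDimensional ℂ A]
    (W : HodgeRing (c + 2 * r) A) (k : ℕ) (hk : k ≤ r) : (W.h (c + (r - k)) (r - k) : ℤ) =
      (W.h (c + (r + k)) (r + k) : ℤ) := by
  have h1 := W.h_symm (a := c) (b := 0) (r := r) (k := k) (by omega) hk
  rw [zero_add, zero_add] at h1
  exact_mod_cast h1

theorem sym_odd {c m : ℕ} {A : Type*} [Ring A] [Algebra ℂ A] [FiniteDimensional ℂ A]
    (W : HodgeRing (c + m) A) (j : ℕ) (hj : j ≤ m) : (W.h (c + (m - j)) (m - j) : ℤ) =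
      (W.h (c + j) j : ℤ) := by
  have h1 := W.h_serre (p := c + j) (q := j) (by omega) (by omega)
  rw [show c + m - (c + j) = m - j by omega, show c + m - j = c + (m - j) by omega,
    W.h_conj] at h1
  exact_mod_cast h1

theorem coeff_neg {m : ℕ} {s : ℤ} {A : Type*} [Ring A] [Algebra ℂ A] [FiniteDimensional ℂ A]
    (W : HodgeRing m A) (c : ℕ) : (W.gen (wt s)).coeff (-(c : ℤ)) =
      s ^ c * (W.gen (wt s)).coeff (c : ℤ) := by
  rw [W.coeff_gen_nat, W.coeff_gen, Finset.sum_product, Finset.mul_sum]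
  refine Finset.sum_congr rfl fun p _ => ?_
  rw [Finset.sum_eq_single (c + p)]
  · rw [if_pos (by push_cast; ring), W.h_conj, pow_add]
    ring
  · intro q _ hq
    rw [if_neg (by intro h; apply hq; omega), mul_zero]
  · intro h
    rw [Finset.mem_range] at h
    rw [W.h_eq_zero (by omega)]
    push_cast
    ring

end HodgeRing

section

variable {n : ℕ} {A B : Type*} [Ring A] [Algebra ℂ A] [FiniteDimensional ℂ A]
  [Ring B] [Algebra ℂ B] [FiniteDimensional ℂ B]

/-- the alternating sum over a column -/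
theorem alt_column {X : HodgeRing n A} {Y : HodgeRing n B} {phi : A ≃ₗ[ℂ] B}
    (hphi : IsMukaiIsometry X Y phi) (c : ℕ) :
    ∑ j ∈ Finset.range (n + 1), (-1 : ℤ) ^ j * (X.h (c + j) j : ℤ) =
      ∑ j ∈ Finset.range (n + 1), (-1 : ℤ) ^ j * (Y.h (c + j) j : ℤ) := by
  rcases Nat.lt_or_ge n c with hc | hc
  · refine Finset.sum_congr rfl fun j _ => ?_
    rw [X.h_eq_zero (by omega), Y.h_eq_zero (by omega)]
  obtain ⟨m, rfl⟩ : ∃ m, n = c + m := ⟨n - c, by omega⟩
  rw [X.cut_column, Y.cut_column]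
  rcases Nat.mod_two_eq_zero_or_one m with hm | hm
  · obtain ⟨r, rfl⟩ : ∃ r, m = 2 * r := ⟨m / 2, by omega⟩
    rw [alt_even (fun j => (X.h (c + j) j : ℤ)) r X.sym_even,
      alt_even (fun j => (Y.h (c + j) j : ℤ)) r Y.sym_even]
    congr 1
    have h1 := main_aux hphi (p := c + r) (q := r) (by omega)
    rw [show min (c + r) r = r by omega] at h1
    obtain ⟨ho, he⟩ := h1
    have split : ∀ h : ℕ → ℕ → ℕ, ∑ k ∈ Finset.range (r + 1),
        (-1 : ℤ) ^ k * (h (c + (r - k)) (r - k) : ℤ) =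
        ((∑ k ∈ Finset.range (r + 1), (if k % 2 = 0 then h (c + r - k) (r - k) else 0) : ℕ) : ℤ) -
        ((∑ k ∈ Finset.range (r + 1), (if k % 2 = 1 then h (c + r - k) (r - k) else 0) : ℕ) :
          ℤ) := by
      intro h
      push_cast
      rw [← Finset.sum_sub_distrib]
      refine Finset.sum_congr rfl fun k hk => ?_
      rw [Finset.mem_range] at hk
      rw [show c + (r - k) = c + r - k by omega]
      rcases Nat.mod_two_eq_zero_or_one k with h0 | h0
      · rw [h0, if_pos rfl, if_neg (by norm_num), Even.neg_one_pow (Nat.even_iff.2 h0)]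
        ring
      · rw [h0, if_neg (by norm_num), if_pos rfl, Odd.neg_one_pow (Nat.odd_iff.2 h0)]
        ring
    rw [split X.h, split Y.h]
    omega
  · rw [alt_odd (fun j => (X.h (c + j) j : ℤ)) hm X.sym_odd,
      alt_odd (fun j => (Y.h (c + j) j : ℤ)) hm Y.sym_odd]

/-- Laurent polynomials with the symmetry of the Hodge diamond -/
theorem gen_ext {m : ℕ} {s : ℤ} {A' B' : Type*} [Ring A'] [Algebra ℂ A'] [FiniteDimensional ℂ A']
    [Ring B'] [Algebra ℂ B'] [FiniteDimensional ℂ B'] (X : HodgeRing m A') (Y : HodgeRing m B')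
    (h : ∀ c : ℕ, (X.gen (HodgeRing.wt s)).coeff (c : ℤ) = (Y.gen (HodgeRing.wt s)).coeff (c : ℤ)) :
    X.gen (HodgeRing.wt s) = Y.gen (HodgeRing.wt s) := by
  ext d
  rcases Int.eq_nat_or_neg d with ⟨c, rfl | rfl⟩
  · exact h c
  · rw [X.coeff_neg, Y.coeff_neg, h]

/-- the signatures of the columns are invariant -/
theorem gen_signature {X : HodgeRing n A} {Y : HodgeRing n B} {phi : A ≃ₗ[ℂ] B}
    (hphi : IsMukaiIsometry X Y phi) :
    X.gen (HodgeRing.wt (-1)) = Y.gen (HodgeRing.wt (-1)) := by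
  refine gen_ext X Y fun c => ?_
  rw [X.coeff_gen_nat, Y.coeff_gen_nat]
  exact alt_column hphi c

end

end Pool.Agent.Hodge81
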