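import Pool.Agent.Helper51.SY.PMain

/-!
# The Lefschetz property of a nondegenerate holomorphic two-form
-/

set_option autoImplicit false

namespace Pool.Agent.Hodge81

open Complex Module

universe u

section sl2

variable {V : Type*} [AddCommGroup V] [Module ℂ V]

/-- an `sl2`-triple whose third member is the weight -/
structure Sl2 (W : ℤ → Submodule ℂ V) (e f : Module.End ℂ V) : Prop where
  up : ∀ k v, v ∈ W k → e v ∈ W (k + 2)
  down : ∀ k v, v ∈ W k → f v ∈ W (k - 2)
  comm : ∀ k v, v ∈ W k → e (f v) = f (e v) + (k : ℂ) • v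
  bounded : ∃ N : ℕ, ∀ k : ℤ, (N : ℤ) < |k| → W k = ⊥

theorem Sl2.swap {W : ℤ → Submodule ℂ V} {e f : Module.End ℂ V} (h : Sl2 W e f) :
    Sl2 (fun k => W (-k)) f e where
  up k v hv := by
    have h1 := h.down (-k) v hv
    rwa [show -k - 2 = -(k + 2) by ring] at h1
  down k v hv := by
    have h1 := h.up (-k) v hv
    rwa [show -k + 2 = -(k - 2) by ring] at h1
  comm k v hv := by
    have h1 := h.comm (-k) v hv
    rw [h1]
    push_cast
    rw [neg_smul, add_assoc, neg_add_cancel, add_zero]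
  bounded := by
    obtain ⟨N, hN⟩ := h.bounded
    exact ⟨N, fun k hk => hN (-k) (by rwa [abs_neg])⟩

theorem Sl2.pow_mem {W : ℤ → Submodule ℂ V} {e f : Module.End ℂ V} (h : Sl2 W e f) (i : ℕ)
    {k : ℤ} {v : V} (hv : v ∈ W k) : (e ^ i) v ∈ W (k + 2 * i) := by
  induction i with
  | zero => simpa using hv
  | succ i ih =>
    rw [pow_succ', Module.End.mul_apply]
    have h1 := h.up _ _ ih
    rwa [show k + 2 * (i : ℤ) + 2 = k + 2 * ((i + 1 : ℕ) : ℤ) by push_cast; ring] at h1

theorem Sl2.pow_comm {W : ℤ → Submodule ℂ V} {e f : Module.End ℂ V} (h : Sl2 W e f) (i : ℕ)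
    {k : ℤ} {v : V} (hv : v ∈ W k) :
    (e ^ (i + 1)) (f v) = f ((e ^ (i + 1)) v) + (((i + 1 : ℕ) : ℂ) * (k + i)) • (e ^ i) v := by
  induction i with
  | zero =>
    rw [zero_add, pow_one, h.comm k v hv, pow_zero, Module.End.one_apply]
    simp
  | succ i ih =>
    rw [pow_succ', Module.End.mul_apply, ih, map_add, map_smul,
      h.comm _ _ (h.pow_mem (i + 1) hv), ← Module.End.mul_apply e (e ^ (i + 1)), ← pow_succ',
      ← Module.End.mul_apply e (e ^ i), ← pow_succ', add_assoc, ← add_smul]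
    congr 2
    push_cast
    ring

/-- the Lefschetz property -/
theorem Sl2.inj {W : ℤ → Submodule ℂ V} {e f : Module.End ℂ V} (h : Sl2 W e f) (i : ℕ) :
    ∀ v ∈ W (-(i : ℤ)), (e ^ i) v = 0 → v = 0 := by
  obtain ⟨N, hN⟩ := h.bounded
  have key : ∀ m i : ℕ, N < i + m → ∀ v ∈ W (-(i : ℤ)), (e ^ i) v = 0 → v = 0 := by
    intro m
    induction m using Nat.strong_induction_on with
    | _ m ih =>
      intro i hi v hv h0
      rcases Nat.lt_or_ge N i with hNi | hNi
      · rw [hN _ (by rw [abs_neg, Nat.abs_cast]; exact_mod_cast hNi), Submodule.mem_bot] at hv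
        exact hv
      · have hf : f v = 0 := by
          have h1 := h.down _ _ hv
          rw [show -(i : ℤ) - 2 = -((i + 2 : ℕ) : ℤ) by push_cast; ring] at h1
          refine ih (m - 2) (by omega) (i + 2) (by omega) (f v) h1 ?_
          rw [show i + 2 = (i + 1) + 1 by rfl, h.pow_comm (i + 1) hv]
          have h2 : (e ^ (i + 1)) v = 0 := by
            rw [pow_succ', Module.End.mul_apply, h0, map_zero]
          rw [pow_succ' e (i + 1), Module.End.mul_apply, h2, map_zero, map_zero, smul_zero,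
            add_zero]
        have low : ∀ k ≤ i, (e ^ k) v = 0 → v = 0 := by
          intro k
          induction k with
          | zero => intro _ h1; simpa using h1
          | succ k ihk =>
            intro hk h1
            apply ihk (by omega)
            have h2 := h.pow_comm k hv
            rw [hf, map_zero, h1, map_zero, zero_add] at h2
            have h3 := smul_eq_zero.1 h2.symm
            rcases h3 with h3 | h3
            · exfalso
              rcases mul_eq_zero.1 h3 with h4 | h4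
              · exact Nat.succ_ne_zero k (by exact_mod_cast h4)
              · have h5 : ((k : ℂ)) = i := by
                  push_cast at h4
                  linear_combination h4
                have h6 : k = i := by exact_mod_cast h5
                omega
            · exact h3
        exact low i le_rfl h0
  exact key (N + 1) i (by omega)

theorem Sl2.surj [FiniteDimensional ℂ V] {W : ℤ → Submodule ℂ V} {e f : Module.End ℂ V}
    (h : Sl2 W e f) (i : ℕ) : (W (-(i : ℤ))).map (e ^ i) = W (i : ℤ) := by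
  have h1 : (W (-(i : ℤ))).map (e ^ i) ≤ W (i : ℤ) := by
    rintro _ ⟨v, hv, rfl⟩
    have h2 := h.pow_mem i hv
    rwa [show -(i : ℤ) + 2 * i = i by ring] at h2
  refine Submodule.eq_of_le_of_finrank_le h1 ?_
  rw [finrank_map_of_inj' _ _ (h.inj i)]
  have h3 := h.swap
  have h4 : (W (i : ℤ)).map (f ^ i) ≤ W (-(i : ℤ)) := by
    rintro _ ⟨v, hv, rfl⟩
    have h5 := h3.pow_mem (k := -(i : ℤ)) i (by rwa [neg_neg])
    rwa [show -(-(i : ℤ) + 2 * i) = -(i : ℤ) by ring] at h5
  have h6 := Submodule.finrank_mono h4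
  rwa [finrank_map_of_inj' _ _ fun v hv => h3.inj i v (by rwa [neg_neg])] at h6

end sl2

namespace HodgeRing

variable {r : ℕ} {C : Type*} [Ring C] [Algebra ℂ C]

/-- the weights of the triple -/
def wgt (S : HodgeRing (2 * r) C) (q : ℕ) (k : ℤ) : Submodule ℂ C :=
  if 0 ≤ (r : ℤ) + k then S.H ((r : ℤ) + k).toNat q else ⊥

theorem mem_wgt (S : HodgeRing (2 * r) C) {q p : ℕ} {k : ℤ} (h : (p : ℤ) = r + k) {v : C} :
    v ∈ S.wgt q k ↔ v ∈ S.H p q := by
  unfold wgt
  rw [if_pos (by omega), ← h, Int.toNat_natCast]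

theorem IsInverse.sl2 {S : HodgeRing (2 * r) C} {s : C} {t : C →ₗ[ℂ] C} (h : S.IsInverse s t)
    (hs : s ∈ S.H 2 0) (q : ℕ) : Sl2 (S.wgt q) (LinearMap.mulLeft ℂ s) t where
  up k v hv := by
    by_cases h0 : 0 ≤ (r : ℤ) + k
    · obtain ⟨p, hp⟩ := Int.eq_ofNat_of_zero_le h0
      rw [S.mem_wgt hp.symm] at hv
      rw [S.mem_wgt (p := p + 2) (by push_cast; omega), LinearMap.mulLeft_apply, add_comm p 2]
      have h1 := S.mul_mem 2 0 p q s v hs hv
      rwa [zero_add] at h1
    · have h1 : v = 0 := by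
        unfold wgt at hv
        rwa [if_neg h0, Submodule.mem_bot] at hv
      rw [h1, map_zero]
      exact Submodule.zero_mem _
  down k v hv := by
    by_cases h0 : 0 ≤ (r : ℤ) + k
    · obtain ⟨p, hp⟩ := Int.eq_ofNat_of_zero_le h0
      rw [S.mem_wgt hp.symm] at hv
      rcases Nat.lt_or_ge p 2 with h2 | h2
      · rw [h.vanish p q v h2 hv]
        exact Submodule.zero_mem _
      · obtain ⟨p', rfl⟩ : ∃ p', p = p' + 2 := ⟨p - 2, by omega⟩
        rw [S.mem_wgt (p := p') (by push_cast at hp; omega)]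
        exact h.degree p' q v hv
    · have h1 : v = 0 := by
        unfold wgt at hv
        rwa [if_neg h0, Submodule.mem_bot] at hv
      rw [h1, map_zero]
      exact Submodule.zero_mem _
  comm k v hv := by
    by_cases h0 : 0 ≤ (r : ℤ) + k
    · obtain ⟨p, hp⟩ := Int.eq_ofNat_of_zero_le h0
      rw [S.mem_wgt hp.symm] at hv
      rw [LinearMap.mulLeft_apply, LinearMap.mulLeft_apply, h.comm p q v hv, add_assoc, ← add_smul]
      have h1 : (r : ℂ) - p + k = 0 := by
        have h2 : ((r : ℤ) + k : ℂ) = ((p : ℤ) : ℂ) := by exact_mod_cast congrArg (fun z : ℤ => (z : ℂ)) hp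
        push_cast at h2
        linear_combination h2
      rw [h1, zero_smul, add_zero]
    · have h1 : v = 0 := by
        unfold wgt at hv
        rwa [if_neg h0, Submodule.mem_bot] at hv
      rw [h1]
      simp
  bounded := by
    refine ⟨r, fun k hk => ?_⟩
    unfold wgt
    split_ifs with h0
    · apply S.bounded
      rcases abs_cases k with ⟨h1, -⟩ | ⟨h1, -⟩ <;> omega
    · rfl

theorem conj_pow (S : HodgeRing (2 * r) C) (x : C) (i : ℕ) :
    S.conj (x ^ i) = S.conj x ^ i := map_pow _ _ _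

/-- symplectic varieties have the Lefschetz property -/
theorem Symplectic.forms [FiniteDimensional ℂ C] {S : HodgeRing (2 * r) C} (h : S.Symplectic) :
    S.FormsNondegenerate r := by
  intro x hx hxr p i hi
  have hs := S.conj_mem 0 2 x hx
  have hsr : S.conj x ^ r ≠ 0 := by
    rw [← S.conj_pow]
    intro h0
    apply hxr
    rw [← S.conj_conj (x ^ r), h0, map_zero]
  obtain ⟨t, ht⟩ := h.inverse _ hs hsr
  have h1 := ht.sl2 hs p
  have hpow : ∀ v, ((LinearMap.mulLeft ℂ (S.conj x)) ^ i) v = S.conj x ^ i * v := by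
    intro v
    rw [LinearMap.pow_mulLeft, LinearMap.mulLeft_apply]
  have hconj : ∀ v, S.conj (x ^ i * v) = S.conj x ^ i * S.conj v := by
    intro v
    rw [map_mul, map_pow]
  have e1 : ∀ v, v ∈ S.wgt p (-(i : ℤ)) ↔ v ∈ S.H (r - i) p := fun v =>
    S.mem_wgt (by push_cast [Nat.cast_sub hi]; ring)
  have e2 : ∀ v, v ∈ S.wgt p (i : ℤ) ↔ v ∈ S.H (r + i) p := fun v =>
    S.mem_wgt (by push_cast; ring)
  constructor
  · apply le_antisymm
    · rintro _ ⟨v, hv, rfl⟩
      have h2 := S.mul_mem 0 (2 * i) p (r - i) _ _ (S.pow_mem_H hx i) hv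
      rw [zero_add, show 2 * i + (r - i) = r + i by omega] at h2
      exact h2
    · intro w hw
      have h2 := S.conj_mem _ _ w hw
      rw [← e2, ← h1.surj i] at h2
      obtain ⟨v, hv, hvw⟩ := h2
      rw [hpow] at hvw
      refine ⟨S.conj v, S.conj_mem _ _ v ((e1 v).1 hv), ?_⟩
      rw [LinearMap.mulLeft_apply, ← S.conj_conj (x ^ i * S.conj v), hconj, S.conj_conj, hvw,
        S.conj_conj]
  · intro v hv h0
    have h2 : S.conj v = 0 := by
      refine h1.inj i (S.conj v) ((e1 _).2 (S.conj_mem _ _ v hv)) ?_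
      rw [hpow, ← hconj, h0, map_zero]
    rw [← S.conj_conj v, h2, map_zero]

theorem Symplectic.exists_conj {S : HodgeRing (2 * r) C} (h : S.Symplectic) :
    ∃ x ∈ S.H 0 2, x ^ r ≠ 0 := by
  obtain ⟨s, hs, hsr⟩ := h.exists_form
  refine ⟨S.conj s, S.conj_mem _ _ s hs, fun h0 => hsr ?_⟩
  rw [← S.conj_conj (s ^ r), S.conj_pow, h0, map_zero]

end HodgeRing

/-- the final form -/
theorem splitting_main {n r r' b b' : ℕ} {A B : Type u} {C D C' D' : Type*}
    [Ring A] [Algebra ℂ A] [FiniteDimensional ℂ A] [Ring B] [Algebra ℂ B] [FiniteDimensional ℂ B]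
    [Ring C] [Algebra ℂ C] [FiniteDimensional ℂ C] [Ring D] [Algebra ℂ D] [FiniteDimensional ℂ D]
    [Ring C'] [Algebra ℂ C'] [FiniteDimensional ℂ C']
    [Ring D'] [Algebra ℂ D'] [FiniteDimensional ℂ D']
    {X : HodgeRing n A} {Y : HodgeRing n B} {P : PolyvectorAction X} {Q : PolyvectorAction Y}
    {phi : A ≃ₗ[ℂ] B} (h : IsHochschildIso P Q phi) (hM : IsMukaiIsometry X Y phi)
    {S : HodgeRing (2 * r) C} {Z : HodgeRing b D} {S' : HodgeRing (2 * r') C'}
    {Z' : HodgeRing b' D'} (U : Splitting X S Z) (U' : Splitting Y S' Z') :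
    r = r' ∧ b = b' ∧ (∀ p q, S.h p q = S'.h p q) ∧
      (∀ s : ℤ, s = 1 ∨ s = -1 → ∀ c, ∑ j ∈ Finset.range (n + 1), s ^ j * (Z.h (c + j) j : ℤ) =
        ∑ j ∈ Finset.range (n + 1), s ^ j * (Z'.h (c + j) j : ℤ)) ∧
      (b ≤ 4 ∨ b = 5 ∧ Z.chernNumber = Z'.chernNumber → ∀ p q, X.h p q = Y.h p q) := by
  have hr : r = r' := le_antisymm
    (dim_le h U.toProduct U'.toProduct U.symplectic.exists_conj U'.one_forms U'.two_forms)
    (dim_le h.symm U'.toProduct U.toProduct U'.symplectic.exists_conj U.one_forms U.two_forms)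
  have hb : b = b' := by
    have h1 := U.dim
    have h2 := U'.dim
    omega
  refine ⟨hr, hb, product_main h hM U.toProduct U'.toProduct U.symplectic.forms
    U'.symplectic.forms ?_ U.symplectic.exists_conj U'.symplectic.exists_conj U.one_forms
    U.two_forms U'.one_forms U'.two_forms⟩
  rcases U.generated with h0 | h1
  · exact Or.inl h0
  · rcases U'.generated with h0 | h2
    · exact Or.inl (hb.trans h0)
    · exact Or.inr ⟨h1, h2⟩

end Pool.Agent.Hodge81
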