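import Pool.Agent.Helper51.SY.Sig

/-!
# Varieties of dimension at most five without one- and two-forms
-/

set_option autoImplicit false

namespace Pool.Agent.Hodge81

open Complex Module LaurentPolynomial

section

variable {m : ℕ} {A B : Type*} [Ring A] [Algebra ℂ A] [FiniteDimensional ℂ A]
  [Ring B] [Algebra ℂ B] [FiniteDimensional ℂ B]

omit [FiniteDimensional ℂ A] in
theorem HodgeRing.coeff_gen_cut (Z : HodgeRing m A) (s : ℤ) {c : ℕ} (hc : c ≤ m) :
    (Z.gen (HodgeRing.wt s)).coeff (c : ℤ) =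
      ∑ j ∈ Finset.range (m - c + 1), s ^ j * (Z.h (c + j) j : ℤ) := by
  rw [Z.coeff_gen_nat]
  symm
  refine Finset.sum_subset (fun j hj => ?_) fun j _ hj => ?_
  · rw [Finset.mem_range] at hj ⊢
    omega
  · rw [Finset.mem_range] at hj
    rw [Z.h_eq_zero (by omega)]
    simp

theorem HodgeRing.h_flip (Z : HodgeRing m A) {p q : ℕ} (hp : p ≤ m) (hq : q ≤ m) :
    Z.h p q = Z.h (m - q) (m - p) := by
  rw [← Z.h_serre hp hq, Z.h_conj]

/-- varieties of dimension at most five without one- and two-forms -/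
theorem small_main (hm : m ≤ 5) (Z : HodgeRing m A) (Z' : HodgeRing m B)
    (hcol : Z.gen (HodgeRing.wt 1) = Z'.gen (HodgeRing.wt 1))
    (hsig : Z.gen (HodgeRing.wt (-1)) = Z'.gen (HodgeRing.wt (-1)))
    (z1 : Z.h 0 1 = 0) (z2 : Z.h 0 2 = 0) (z1' : Z'.h 0 1 = 0) (z2' : Z'.h 0 2 = 0)
    (hch : m = 5 → Z.chernNumber = Z'.chernNumber) (p q : ℕ) : Z.h p q = Z'.h p q := by
  have hc : ∀ c ≤ m, ∑ j ∈ Finset.range (m - c + 1), (Z.h (c + j) j : ℤ) =
      ∑ j ∈ Finset.range (m - c + 1), (Z'.h (c + j) j : ℤ) := by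
    intro c hc
    have h1 := congrArg (fun f => f.coeff (c : ℤ)) hcol
    simp only [Z.coeff_gen_cut _ hc, Z'.coeff_gen_cut _ hc, one_pow, one_mul] at h1
    exact h1
  have hs : ∀ c ≤ m, ∑ j ∈ Finset.range (m - c + 1), (-1 : ℤ) ^ j * (Z.h (c + j) j : ℤ) =
      ∑ j ∈ Finset.range (m - c + 1), (-1 : ℤ) ^ j * (Z'.h (c + j) j : ℤ) := by
    intro c hc
    have h1 := congrArg (fun f => f.coeff (c : ℤ)) hsig
    simp only [Z.coeff_gen_cut _ hc, Z'.coeff_gen_cut _ hc] at h1
    exact h1
  have h00 : Z.h 0 0 = 1 := Z.connected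
  have h00' : Z'.h 0 0 = 1 := Z'.connected
  rw [Z.h_conj] at z1 z2
  rw [Z'.h_conj] at z1' z2'
  refine reduce Z Z' (fun _ _ => True) (fun _ _ _ => trivial) (fun _ _ _ _ _ => trivial)
    (fun p q hqp hpq _ => ?_) p q trivial
  have hfl : ∀ p q, p ≤ m → q ≤ m → Z.h p q = Z.h (m - q) (m - p) :=
    fun p q hp hq => Z.h_flip hp hq
  have hfl' : ∀ p q, p ≤ m → q ≤ m → Z'.h p q = Z'.h (m - q) (m - p) :=
    fun p q hp hq => Z'.h_flip hp hq
  have hp : p ≤ 5 := by omega
  have hq : q ≤ 2 := by omega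
  clear hcol hsig
  interval_cases m
  · have : p = 0 := by omega
    have : q = 0 := by omega
    subst p q
    omega
  · have : q = 0 := by omega
    subst q
    have : p = 0 ∨ p = 1 := by omega
    rcases this with rfl | rfl <;> omega
  · have c0 := hc 0 (by norm_num)
    simp only [Finset.sum_range_succ, Finset.sum_range_zero] at c0
    norm_num at c0
    have e1 := hfl 2 2 (by norm_num) (by norm_num)
    have e1' := hfl' 2 2 (by norm_num) (by norm_num)
    norm_num at e1 e1'
    interval_cases p <;> interval_cases q <;> omega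
  · have c0 := hc 0 (by norm_num)
    have c1 := hc 1 (by norm_num)
    have c3 := hc 3 (by norm_num)
    simp only [Finset.sum_range_succ, Finset.sum_range_zero] at c0 c1 c3
    norm_num at c0 c1 c3
    have e1 := hfl 3 3 (by norm_num) (by norm_num)
    have e1' := hfl' 3 3 (by norm_num) (by norm_num)
    have e2 := hfl 2 2 (by norm_num) (by norm_num)
    have e2' := hfl' 2 2 (by norm_num) (by norm_num)
    have e3 := hfl 3 2 (by norm_num) (by norm_num)
    have e3' := hfl' 3 2 (by norm_num) (by norm_num)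
    norm_num at e1 e1' e2 e2' e3 e3'
    interval_cases p <;> interval_cases q <;> omega
  · have c0 := hc 0 (by norm_num)
    have c1 := hc 1 (by norm_num)
    have c2 := hc 2 (by norm_num)
    have c3 := hc 3 (by norm_num)
    have c4 := hc 4 (by norm_num)
    have s0 := hs 0 (by norm_num)
    simp only [Finset.sum_range_succ, Finset.sum_range_zero] at c0 c1 c2 c3 c4 s0
    norm_num at c0 c1 c2 c3 c4 s0
    have e1 := hfl 4 4 (by norm_num) (by norm_num)
    have e1' := hfl' 4 4 (by norm_num) (by norm_num)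
    have e2 := hfl 3 3 (by norm_num) (by norm_num)
    have e2' := hfl' 3 3 (by norm_num) (by norm_num)
    have e3 := hfl 4 3 (by norm_num) (by norm_num)
    have e3' := hfl' 4 3 (by norm_num) (by norm_num)
    have e4 := hfl 3 2 (by norm_num) (by norm_num)
    have e4' := hfl' 3 2 (by norm_num) (by norm_num)
    have e5 := hfl 4 2 (by norm_num) (by norm_num)
    have e5' := hfl' 4 2 (by norm_num) (by norm_num)
    have e6 := hfl 4 1 (by norm_num) (by norm_num)
    have e6' := hfl' 4 1 (by norm_num) (by norm_num)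
    norm_num at e1 e1' e2 e2' e3 e3' e4 e4' e5 e5' e6 e6'
    interval_cases p <;> interval_cases q <;> omega
  · have c0 := hc 0 (by norm_num)
    have c1 := hc 1 (by norm_num)
    have c2 := hc 2 (by norm_num)
    have c3 := hc 3 (by norm_num)
    have c4 := hc 4 (by norm_num)
    have c5 := hc 5 (by norm_num)
    have s1 := hs 1 (by norm_num)
    have s3 := hs 3 (by norm_num)
    have ch := hch rfl
    unfold HodgeRing.chernNumber at ch
    simp only [Finset.sum_range_succ, Finset.sum_range_zero] at c0 c1 c2 c3 c4 c5 s1 s3 ch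
    norm_num at c0 c1 c2 c3 c4 c5 s1 s3 ch
    have e1 := hfl 5 5 (by norm_num) (by norm_num)
    have e1' := hfl' 5 5 (by norm_num) (by norm_num)
    have e2 := hfl 4 4 (by norm_num) (by norm_num)
    have e2' := hfl' 4 4 (by norm_num) (by norm_num)
    have e3 := hfl 3 3 (by norm_num) (by norm_num)
    have e3' := hfl' 3 3 (by norm_num) (by norm_num)
    have e4 := hfl 5 4 (by norm_num) (by norm_num)
    have e4' := hfl' 5 4 (by norm_num) (by norm_num)
    have e5 := hfl 4 3 (by norm_num) (by norm_num)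
    have e5' := hfl' 4 3 (by norm_num) (by norm_num)
    have e6 := hfl 5 3 (by norm_num) (by norm_num)
    have e6' := hfl' 5 3 (by norm_num) (by norm_num)
    have e7 := hfl 4 2 (by norm_num) (by norm_num)
    have e7' := hfl' 4 2 (by norm_num) (by norm_num)
    have e8 := hfl 5 2 (by norm_num) (by norm_num)
    have e8' := hfl' 5 2 (by norm_num) (by norm_num)
    have e9 := hfl 5 1 (by norm_num) (by norm_num)
    have e9' := hfl' 5 1 (by norm_num) (by norm_num)
    norm_num at e1 e1' e2 e2' e3 e3' e4 e4' e5 e5' e6 e6' e7 e7' e8 e8' e9 e9'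
    have f : ∀ p q, Z.h p q = Z.h q p := Z.h_conj
    have f' : ∀ p q, Z'.h p q = Z'.h q p := Z'.h_conj
    rw [f 0 1, f 0 2, f 0 3, f 0 4, f 0 5, f 1 2, f 1 3, f 1 4, f 1 5, f 2 3, f 2 4, f 2 5,
      f 3 4, f 3 5, f 4 5, f' 0 1, f' 0 2, f' 0 3, f' 0 4, f' 0 5, f' 1 2, f' 1 3, f' 1 4,
      f' 1 5, f' 2 3, f' 2 4, f' 2 5, f' 3 4, f' 3 5, f' 4 5] at ch
    interval_cases p <;> interval_cases q <;> omega

end

end Pool.Agent.Hodge81
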