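import Pool.Agent.Helper51.SY.Rank
import Pool.Agent.Helper87.RF.Total

/-!
# Varieties with an everywhere nondegenerate holomorphic two-form
-/

set_option autoImplicit false

namespace Pool.Agent.Hodge81

open Complex Module

namespace HodgeRing

variable {n : ℕ} {A : Type*} [Ring A] [Algebra ℂ A] (X : HodgeRing n A)

/-- every class `x` in `H^{0,2}(X)` with `x^r ≠ 0` has the Lefschetz property: `x^i` maps
`H^{p,r-i}` isomorphically onto `H^{p,r+i}` -/
def FormsNondegenerate (r : ℕ) : Prop :=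
  ∀ x ∈ X.H 0 2, x ^ r ≠ 0 → ∀ p i, i ≤ r →
    (X.H p (r - i)).map (LinearMap.mulLeft ℂ (x ^ i)) = X.H p (r + i) ∧
      ∀ v ∈ X.H p (r - i), x ^ i * v = 0 → v = 0

theorem pow_mem_H {x : A} (hx : x ∈ X.H 0 2) (i : ℕ) : x ^ i ∈ X.H 0 (2 * i) := by
  induction i with
  | zero => simpa using X.one_mem
  | succ i ih =>
    rw [pow_succ]
    have h1 := X.mul_mem 0 (2 * i) 0 2 _ _ ih hx
    simpa [mul_add] using h1

theorem pc_eq_bot {d : ℤ} {j : ℕ} (h : (j : ℤ) + d < 0 ∨ n < j ∨ (n : ℤ) < (j : ℤ) + d) :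
    X.pc d j = ⊥ := by
  unfold pc
  split_ifs with h0
  · apply X.bounded
    omega
  · rfl

theorem finrank_pc (d : ℤ) (j p : ℕ) (h : (p : ℤ) - j = d) : finrank ℂ (X.pc d j) = X.h p j := by
  unfold pc
  have h1 : (j : ℤ) + d = p := by omega
  rw [if_pos (by omega), h1, Int.toNat_natCast]
  rfl

/-- Serre duality for the pieces -/
theorem finrank_pc_serre [FiniteDimensional ℂ A] (d : ℤ) {j : ℕ} (hj : j ≤ n) :
    finrank ℂ (X.pc (-d) (n - j)) = finrank ℂ (X.pc d j) := by
  by_cases h : 0 ≤ (j : ℤ) + d ∧ (j : ℤ) + d ≤ n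
  · obtain ⟨h1, h2⟩ := h
    obtain ⟨p, hp⟩ := Int.eq_ofNat_of_zero_le h1
    have hpn : p ≤ n := by omega
    rw [X.finrank_pc d j p (by omega), X.finrank_pc (-d) (n - j) (n - p) (by omega),
      X.h_serre hpn hj]
  · rw [X.pc_eq_bot (d := d) (by omega), X.pc_eq_bot (d := -d) (by omega)]

/-- rank on a piece, small degrees -/
theorem finrank_piece_low {r : ℕ} (hX : X.FormsNondegenerate r) {x : A} (hx : x ∈ X.H 0 2)
    (hxr : x ^ r ≠ 0) (d : ℤ) {i j : ℕ} (hj : j + i ≤ r) :
    finrank ℂ ((X.pc d j).map (LinearMap.mulLeft ℂ (x ^ i))) = finrank ℂ (X.pc d j) := by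
  refine finrank_map_of_inj' _ _ fun v hv h0 => ?_
  rcases X.of_mem_pc hv with rfl | ⟨p, -, hv1⟩
  · rfl
  · refine (hX x hx hxr p (r - j) (by omega)).2 v ?_ ?_
    · rwa [show r - (r - j) = j by omega]
    · rw [show r - j = (r - j - i) + i by omega, pow_add, mul_assoc]
      rw [LinearMap.mulLeft_apply] at h0
      rw [h0, mul_zero]

/-- a power of a nondegenerate form is surjective onto the pieces of large degree -/
theorem piece_surj {r : ℕ} (hn : n = 2 * r) (hX : X.FormsNondegenerate r) {x : A}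
    (hx : x ∈ X.H 0 2) (hxr : x ^ r ≠ 0) (d : ℤ) {i j : ℕ} (hj : r ≤ j + i) :
    X.pc (d - (2 * i : ℕ)) (j + 2 * i) ≤ (X.pc d j).map (LinearMap.mulLeft ℂ (x ^ i)) := by
  intro w hw
  rcases X.of_mem_pc hw with rfl | ⟨p, hp, hw1⟩
  · exact Submodule.zero_mem _
  · rcases Nat.lt_or_ge n (j + 2 * i) with h | h
    · rw [X.bounded _ _ (Or.inr h), Submodule.mem_bot] at hw1
      rw [hw1]
      exact Submodule.zero_mem _
    · -- `j + 2 i = r + s`
      obtain ⟨s, hs⟩ : ∃ s, j + 2 * i = r + s := ⟨j + 2 * i - r, by omega⟩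
      have h1 := (hX x hx hxr p s (by omega)).1
      rw [← hs] at h1
      rw [← h1] at hw1
      obtain ⟨v, hv, rfl⟩ := hw1
      refine ⟨x ^ (s - i) * v, ?_, ?_⟩
      · have h2 := X.mul_mem 0 (2 * (s - i)) p (r - s) _ _ (X.pow_mem_H hx (s - i)) hv
        rw [zero_add, show 2 * (s - i) + (r - s) = j by omega] at h2
        exact X.mem_pc (by push_cast at hp; omega) h2
      · rw [LinearMap.mulLeft_apply, LinearMap.mulLeft_apply, ← mul_assoc, ← pow_add,
          show i + (s - i) = s by omega]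

/-- rank on a piece, large degrees -/
theorem finrank_piece_high {r : ℕ} (hn : n = 2 * r) (hX : X.FormsNondegenerate r) {x : A}
    (hx : x ∈ X.H 0 2) (hxr : x ^ r ≠ 0) (d : ℤ) {i j : ℕ} (hj : r ≤ j + i) :
    finrank ℂ ((X.pc d j).map (LinearMap.mulLeft ℂ (x ^ i))) =
      finrank ℂ (X.pc (d - (2 * i : ℕ)) (j + 2 * i)) := by
  have e : (X.pc d j).map (LinearMap.mulLeft ℂ (x ^ i)) = X.pc (d - (2 * i : ℕ)) (j + 2 * i) := by
    apply le_antisymm (X.mul_pc (X.pow_mem_H hx i) d j)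
    exact X.piece_surj hn hX hx hxr d hj
  rw [e]

/-- the partial sums of the column -/
noncomputable def ps (d : ℤ) (m : ℕ) : ℕ := ∑ j ∈ Finset.range m, finrank ℂ (X.pc d j)

/-- the rank of a power of a nondegenerate form on a column -/
theorem rk_pow [FiniteDimensional ℂ A] {r : ℕ} (hn : n = 2 * r) (hX : X.FormsNondegenerate r)
    {x : A} (hx : x ∈ X.H 0 2) (hxr : x ^ r ≠ 0) (d : ℤ) {m : ℕ} (hm : m ≤ r) :
    X.rk (x ^ (r - m)) d = X.ps d (m + 1) + X.ps ((2 * (r - m) : ℕ) - d) m := by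
  obtain ⟨i, rfl⟩ : ∃ i, r = m + i := ⟨r - m, by omega⟩
  rw [Nat.add_sub_cancel_left]
  unfold rk
  rw [X.column_eq_firsts d (Nat.lt_succ_self n),
    finrank_map_firsts (s := 2 * i) (X.indep_pc (d - (2 * i : ℕ)))
      (fun j => X.mul_pc (X.pow_mem_H hx i) d j)]
  have hsplit : n.succ = (m + 1) + (m + (i + i)) := by omega
  rw [hsplit, Finset.sum_range_add]
  congr 1
  · refine Finset.sum_congr rfl fun j hj => ?_
    rw [Finset.mem_range] at hj
    exact X.finrank_piece_low hX hx hxr d (by omega)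
  · rw [Finset.sum_range_add]
    have h0 : ∑ j ∈ Finset.range (i + i), finrank ℂ
        ((X.pc d (m + 1 + (m + j))).map (LinearMap.mulLeft ℂ (x ^ i))) = 0 := by
      refine Finset.sum_eq_zero fun j _ => ?_
      rw [X.finrank_piece_high hn hX hx hxr d (by omega), X.pc_eq_bot (by omega), finrank_bot]
    rw [h0, add_zero, ← Finset.sum_range_reflect]
    unfold ps
    refine Finset.sum_congr rfl fun j hj => ?_
    rw [Finset.mem_range] at hj
    rw [X.finrank_piece_high hn hX hx hxr d (by omega)]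
    have h1 := X.finrank_pc_serre (d - (2 * i : ℕ)) (j := n - j) (by omega)
    rw [show n - (n - j) = j by omega, neg_sub] at h1
    rw [h1, show m + 1 + (m - 1 - j) + 2 * i = n - j by omega]

end HodgeRing

section main

universe u

variable {n : ℕ} {A B : Type u} [Ring A] [Algebra ℂ A] [FiniteDimensional ℂ A]
  [Ring B] [Algebra ℂ B] [FiniteDimensional ℂ B]
  {X : HodgeRing n A} {Y : HodgeRing n B} {P : PolyvectorAction X} {Q : PolyvectorAction Y}
  {phi : A ≃ₗ[ℂ] B}

theorem evalE_pow (h : IsHochschildIso P Q phi) {y : B} (hy : y ∈ Y.H 0 2) (i : ℕ) :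
    evalE X phi (y ^ i) = evalE X phi y ^ i := by
  induction i with
  | zero => simpa using evalE_one
  | succ i ih => rw [pow_succ, pow_succ, evalE_mul h P.eval (Y.pow_mem_H hy i) hy, ih]

theorem pow_low {x : A} (hx : x ∈ X.H 0 2) (r : ℕ) : x ^ r ∈ X.lowPart (2 * r) :=
  ⟨X.lowAlg.pow_mem (Algebra.subset_adjoin (Or.inr hx)) r, X.pow_mem_H hx r⟩

theorem evalE_pow_ne (h : IsHochschildIso P Q phi) {y : B} (hy : y ∈ Y.H 0 2) {r : ℕ}
    (h0 : y ^ r ≠ 0) : evalE X phi y ^ r ≠ 0 := by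
  rw [← evalE_pow h hy]
  intro h1
  exact h0 (evalE_inj_lowPart h (2 * r) (pow_low hy r) h1)

/-- the partial sums of one side are at most those of the other side plus ... -/
theorem rk_pow_le (h : IsHochschildIso P Q phi) (hM : IsMukaiIsometry X Y phi) {r : ℕ}
    (hn : n = 2 * r) (hX : X.FormsNondegenerate r) (hY : Y.FormsNondegenerate r) {y : B}
    (hy : y ∈ Y.H 0 2) (hyr : y ^ r ≠ 0) (d : ℤ) {m : ℕ} (hm : m ≤ r) :
    X.ps d (m + 1) + X.ps ((2 * (r - m) : ℕ) - d) m ≤
      Y.ps d (m + 1) + Y.ps ((2 * (r - m) : ℕ) - d) m := by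
  have h1 := (evalE_spec (P := P) h P.eval hy).1
  have h2 := evalE_pow_ne (P := P) (X := X) h hy hyr
  rw [← X.rk_pow hn hX h1 h2 d hm, ← Y.rk_pow hn hY hy hyr d hm, ← evalE_pow h hy]
  exact rk_le h hM (Y.pow_mem_H hy _) d

/-- Derived equivalent varieties with nondegenerate two-forms have the same Hodge numbers. -/
theorem symplectic_main (h : IsHochschildIso P Q phi) (hM : IsMukaiIsometry X Y phi) {r : ℕ}
    (hn : n = 2 * r) (hX : X.FormsNondegenerate r) (hY : Y.FormsNondegenerate r)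
    (hex : ∃ x ∈ X.H 0 2, x ^ r ≠ 0) (p q : ℕ) : X.h p q = Y.h p q := by
  obtain ⟨x, hx, hxr⟩ := hex
  have hy := (evalE_spec (P := Q) h.symm Q.eval hx).1
  have hyr := evalE_pow_ne (P := Q) (X := Y) h.symm hx hxr
  have key : ∀ m ≤ r + 1, ∀ d, X.ps d m = Y.ps d m := by
    intro m
    induction m with
    | zero => intro _ d; rfl
    | succ m ih =>
      intro hm d
      have h1 := rk_pow_le h hM hn hX hY hy hyr d (show m ≤ r by omega)
      have h2 := rk_pow_le h.symm hM.symm hn hY hX hx hxr d (show m ≤ r by omega)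
      have h3 := ih (by omega) ((2 * (r - m) : ℕ) - d)
      omega
  have low : ∀ (d : ℤ) (j : ℕ), j ≤ r → finrank ℂ (X.pc d j) = finrank ℂ (Y.pc d j) := by
    intro d j hj
    have h1 := key (j + 1) (by omega) d
    have h2 := key j (by omega) d
    unfold HodgeRing.ps at h1 h2
    rw [Finset.sum_range_succ, Finset.sum_range_succ, h2] at h1
    omega
  have all : ∀ (d : ℤ) (j : ℕ), finrank ℂ (X.pc d j) = finrank ℂ (Y.pc d j) := by
    intro d j
    rcases Nat.lt_or_ge n j with h0 | h0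
    · rw [X.pc_eq_bot (by omega), Y.pc_eq_bot (by omega), finrank_bot, finrank_bot]
    · rcases Nat.lt_or_ge r j with h1 | h1
      · rw [← X.finrank_pc_serre d h0, ← Y.finrank_pc_serre d h0]
        exact low _ _ (by omega)
      · exact low d j h1
  have h1 := all ((p : ℤ) - q) q
  rwa [X.finrank_pc _ q p rfl, Y.finrank_pc _ q p rfl] at h1

end main

end Pool.Agent.Hodge81
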